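import Mathlib
import Pool.Agent.Helper405.AreaA
import Pool.Agent.Helper405.ConvA
import Pool.Agent.Helper859.SP.W1
import Pool.Agent.Helper859.SP.W2

/-!
Omitted values and the image area of univalent functions with given second coefficient.
-/

namespace Pool.Agent.V1187.MA

open Complex Filter Topology Set Metric MeasureTheory

/-- The class `S`. -/
structure InS (f : ℂ → ℂ) : Prop where
  diff : DifferentiableOn ℂ f (ball 0 1)
  inj : InjOn f (ball 0 1)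
  zero : f 0 = 0
  one : deriv f 0 = 1

/-- The second Taylor coefficient at the origin. -/
noncomputable def a2 (f : ℂ → ℂ) : ℂ := deriv (deriv f) 0 / 2

/-- The Fekete-Szego bound `|a₂² - a₃| ≤ 1` for the class `S`. -/
lemma fs (f : ℂ → ℂ) (hf : DifferentiableOn ℂ f (ball (0:ℂ) 1)) (hi : InjOn f (ball (0:ℂ) 1))
    (h0 : f 0 = 0) (h1 : deriv f 0 = 1) :
    ‖Pool.Agent.Helper859.SP.coeff 2 f ^ 2 - Pool.Agent.Helper859.SP.coeff 3 f‖ ≤ 1 :=
  Pool.Agent.Helper859.SP.W1.b1_bound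
    (fun _ _ _ _ _ _ hd hi hp hV hP hF ha hr0 hr1 =>
      Pool.Agent.Helper405.Area.area hd hi hp hV hP hF ha hr0 hr1) f hf hi h0 h1

/-- The Bieberbach bound `|a₂| ≤ 2` for the class `S`. -/
lemma bieb_norm {g : ℂ → ℂ} (hd : DifferentiableOn ℂ g (ball 0 1)) (hi : InjOn g (ball 0 1))
    (h0 : g 0 = 0) (h1 : deriv g 0 = 1) : ‖deriv (deriv g) 0‖ ≤ 4 := by
  have h := Pool.Agent.Helper859.SP.W2.bieberbach fs g hd hi h0 h1
  unfold Pool.Agent.Helper859.SP.coeff at h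
  rw [iteratedDeriv_succ, iteratedDeriv_one, norm_div] at h
  norm_num [Nat.factorial] at h
  linarith

lemma zero_mem : (0 : ℂ) ∈ ball (0 : ℂ) 1 := mem_ball_self one_pos

lemma InS.norm_a2 {f : ℂ → ℂ} (h : InS f) : ‖a2 f‖ ≤ 2 := by
  have := bieb_norm h.diff h.inj h.zero h.one
  unfold a2
  rw [norm_div, show ‖(2 : ℂ)‖ = 2 by simp]
  linarith

/-- An omitted value `w` satisfies `|a₂ + 1/w| ≤ 2`. -/
lemma omitted {f : ℂ → ℂ} (h : InS f) {w : ℂ} (hw : w ∉ f '' ball 0 1) :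
    ‖a2 f + w⁻¹‖ ≤ 2 := by
  have hw0 : w ≠ 0 := by
    rintro rfl
    exact hw ⟨0, zero_mem, h.zero⟩
  have hne : ∀ z ∈ ball (0 : ℂ) 1, 1 - w⁻¹ * f z ≠ 0 := by
    intro z hz h0
    apply hw
    refine ⟨z, hz, ?_⟩
    have : w⁻¹ * f z = 1 := (sub_eq_zero.1 h0).symm
    field_simp at this
    exact this
  set g : ℂ → ℂ := fun z => f z / (1 - w⁻¹ * f z) with hg
  have hfd : ∀ z ∈ ball (0 : ℂ) 1, HasDerivAt f (deriv f z) z := fun z hz =>
    (h.diff.differentiableAt (isOpen_ball.mem_nhds hz)).hasDerivAt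
  have hgd : ∀ z ∈ ball (0 : ℂ) 1, HasDerivAt g (deriv f z / (1 - w⁻¹ * f z) ^ 2) z := by
    intro z hz
    have h1 := hfd z hz
    have h2 : HasDerivAt (fun z => 1 - w⁻¹ * f z) (-(w⁻¹ * deriv f z)) z :=
      (h1.const_mul w⁻¹).const_sub 1
    refine (h1.div h2 (hne z hz)).congr_deriv ?_
    have := hne z hz
    field_simp
    ring
  have hgi : InjOn g (ball 0 1) := by
    intro z hz y hy hzy
    simp only [hg] at hzy
    rw [div_eq_div_iff (hne z hz) (hne y hy)] at hzy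
    exact h.inj hz hy (by linear_combination hzy)
  have hg0 : g 0 = 0 := by simp [hg, h.zero]
  have hg1 : deriv g 0 = 1 := by
    rw [(hgd 0 zero_mem).deriv, h.zero, h.one]; simp
  have hg2 : deriv (deriv g) 0 = deriv (deriv f) 0 + 2 * w⁻¹ := by
    have e1 : deriv g =ᶠ[𝓝 0] fun z => deriv f z / (1 - w⁻¹ * f z) ^ 2 := by
      filter_upwards [isOpen_ball.mem_nhds zero_mem] with z hz
      exact (hgd z hz).deriv
    rw [e1.deriv_eq]
    have e2 : HasDerivAt (deriv f) (deriv (deriv f) 0) 0 :=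
      ((h.diff.deriv isOpen_ball).differentiableAt (isOpen_ball.mem_nhds zero_mem)).hasDerivAt
    have e3 : HasDerivAt (fun z => 1 - w⁻¹ * f z) (-(w⁻¹ * deriv f 0)) 0 :=
      ((hfd 0 zero_mem).const_mul w⁻¹).const_sub 1
    have e4 := e2.div (e3.pow 2) (pow_ne_zero 2 (hne 0 zero_mem))
    refine (HasDerivAt.deriv (f := fun z => deriv f z / (1 - w⁻¹ * f z) ^ 2) e4).trans ?_
    simp only [h.zero, h.one, mul_zero, sub_zero, one_pow, mul_one, Pi.pow_apply]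
    simp
  have hb := bieb_norm (g := g)
    (fun z hz => (hgd z hz).differentiableAt.differentiableWithinAt) hgi hg0 hg1
  rw [hg2] at hb
  have e : deriv (deriv f) 0 + 2 * w⁻¹ = 2 * (a2 f + w⁻¹) := by unfold a2; ring
  rw [e, norm_mul, show ‖(2 : ℂ)‖ = 2 by simp] at hb
  linarith

/-- Every `w` with `|1 + a₂ w| > 2 |w|` is a value. -/
lemma covered {f : ℂ → ℂ} (h : InS f) {w : ℂ} (hw : 2 * ‖w‖ < ‖1 + a2 f * w‖) :
    w ∈ f '' ball 0 1 := by
  by_contra hcon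
  have h1 := omitted h hcon
  have hw0 : w ≠ 0 := by
    rintro rfl
    exact hcon ⟨0, zero_mem, h.zero⟩
  have h2 : ‖1 + a2 f * w‖ = ‖a2 f + w⁻¹‖ * ‖w‖ := by
    rw [← norm_mul]
    congr 1
    field_simp
    ring
  rw [h2] at hw
  have h3 : ‖a2 f + w⁻¹‖ * ‖w‖ ≤ 2 * ‖w‖ := mul_le_mul_of_nonneg_right h1 (norm_nonneg w)
  linarith

/-- The condition `|1 + a w| > 2 |w|` in coordinates. -/
lemma cond_iff (a w : ℂ) : 2 * ‖w‖ < ‖1 + a * w‖ ↔
    (4 - ‖a‖ ^ 2) * ‖w‖ ^ 2 - 2 * (a * w).re < 1 := by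
  have e1 : ‖1 + a * w‖ ^ 2 = 1 + 2 * (a * w).re + ‖a‖ ^ 2 * ‖w‖ ^ 2 := by
    rw [← Complex.normSq_eq_norm_sq, ← Complex.normSq_eq_norm_sq, ← Complex.normSq_eq_norm_sq]
    simp only [Complex.normSq_apply, Complex.add_re, Complex.add_im, Complex.mul_re,
      Complex.mul_im, Complex.one_re, Complex.one_im]
    ring
  constructor
  · intro h
    have h2 : (2 * ‖w‖) ^ 2 < ‖1 + a * w‖ ^ 2 := by
      apply pow_lt_pow_left₀ h (by positivity) two_ne_zero
    rw [e1] at h2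
    nlinarith
  · intro h
    apply lt_of_pow_lt_pow_left₀ 2 (norm_nonneg _)
    rw [e1]
    nlinarith

/-- The image contains a disc of radius `2 / (4 - |a₂|²)`. -/
lemma ball_subset {f : ℂ → ℂ} (h : InS f) (ha : ‖a2 f‖ < 2) :
    ball ((starRingEnd ℂ) (a2 f) / (4 - ‖a2 f‖ ^ 2 : ℝ)) (2 / (4 - ‖a2 f‖ ^ 2)) ⊆
      f '' ball 0 1 := by
  intro w hw
  apply covered h
  rw [cond_iff]
  set a := a2 f with hadef
  have hD : 0 < 4 - ‖a‖ ^ 2 := by nlinarith [norm_nonneg a]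
  set D : ℝ := 4 - ‖a‖ ^ 2 with hDdef
  rw [mem_ball, dist_eq_norm] at hw
  have h2 : ‖w - (starRingEnd ℂ) a / (D : ℂ)‖ ^ 2 < (2 / D) ^ 2 :=
    pow_lt_pow_left₀ hw (norm_nonneg _) two_ne_zero
  have e1 : ‖w - (starRingEnd ℂ) a / (D : ℂ)‖ ^ 2 =
      ‖w‖ ^ 2 - 2 * (a * w).re / D + ‖a‖ ^ 2 / D ^ 2 := by
    have hre : ((starRingEnd ℂ) a / (D : ℂ)).re = a.re / D := by
      rw [Complex.div_ofReal_re, Complex.conj_re]
    have him : ((starRingEnd ℂ) a / (D : ℂ)).im = -a.im / D := by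
      rw [Complex.div_ofReal_im, Complex.conj_im]
    rw [← Complex.normSq_eq_norm_sq, ← Complex.normSq_eq_norm_sq, ← Complex.normSq_eq_norm_sq]
    simp only [Complex.normSq_apply, Complex.sub_re, Complex.sub_im, Complex.mul_re, hre, him]
    field_simp
    ring
  rw [e1, div_pow] at h2
  have h3 : D ^ 2 * (‖w‖ ^ 2 - 2 * (a * w).re / D + ‖a‖ ^ 2 / D ^ 2) < D ^ 2 * (2 ^ 2 / D ^ 2) :=
    mul_lt_mul_of_pos_left h2 (by positivity)
  have e2 : D ^ 2 * (‖w‖ ^ 2 - 2 * (a * w).re / D + ‖a‖ ^ 2 / D ^ 2) =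
      D * (D * ‖w‖ ^ 2 - 2 * (a * w).re) + ‖a‖ ^ 2 := by
    field_simp
  have e3 : D ^ 2 * (2 ^ 2 / D ^ 2) = 4 := by
    field_simp
    norm_num
  rw [e2, e3] at h3
  have h4 : D * (D * ‖w‖ ^ 2 - 2 * (a * w).re) < D * 1 := by
    have : ‖a‖ ^ 2 = 4 - D := by rw [hDdef]; ring
    linarith
  exact lt_of_mul_lt_mul_left h4 hD.le

/-- The covering bound for the area. -/
theorem area_cover {f : ℂ → ℂ} (h : InS f) (ha : ‖a2 f‖ < 2) :
    ENNReal.ofReal (4 * Real.pi / (4 - ‖a2 f‖ ^ 2) ^ 2) ≤ volume (f '' ball 0 1) := by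
  refine le_trans ?_ (measure_mono (ball_subset h ha))
  have hD : 0 < 4 - ‖a2 f‖ ^ 2 := by nlinarith [norm_nonneg (a2 f)]
  rw [Complex.volume_ball, ← ENNReal.ofReal_pow (by positivity)]
  rw [show (NNReal.pi : ENNReal) = ENNReal.ofReal Real.pi by
    rw [← NNReal.coe_real_pi, ENNReal.ofReal_coe_nnreal]]
  rw [← ENNReal.ofReal_mul (by positivity)]
  apply ENNReal.ofReal_le_ofReal
  apply le_of_eq
  field_simp
  norm_num

/-- If `|a₂| = 2` the area is infinite. -/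
theorem area_top {f : ℂ → ℂ} (h : InS f) (ha : ‖a2 f‖ = 2) : volume (f '' ball 0 1) = ⊤ := by
  set a := a2 f with hadef
  have hsub : ∀ t : ℝ, 0 < t → ball ((t : ℂ) * (starRingEnd ℂ) a) (2 * t) ⊆ f '' ball 0 1 := by
    intro t ht w hw
    apply covered h
    rw [cond_iff, ← hadef, ha]
    rw [mem_ball, dist_eq_norm] at hw
    have e1 : (a * w).re = (a * (w - (t : ℂ) * (starRingEnd ℂ) a)).re + 4 * t := by
      have e2 : a * (w - (t : ℂ) * (starRingEnd ℂ) a) = a * w - (t : ℂ) * (a * (starRingEnd ℂ) a) := by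
        ring
      rw [e2, Complex.mul_conj, Complex.normSq_eq_norm_sq, ha]
      simp only [Complex.sub_re, Complex.mul_re, Complex.ofReal_re, Complex.ofReal_im]
      ring
    have h1 : -(‖a‖ * ‖w - (t : ℂ) * (starRingEnd ℂ) a‖) ≤
        (a * (w - (t : ℂ) * (starRingEnd ℂ) a)).re := by
      rw [← norm_mul]
      exact neg_le_of_abs_le (Complex.abs_re_le_norm _)
    rw [ha] at h1
    nlinarith
  refine ENNReal.eq_top_of_forall_nnreal_le fun r => ?_
  have hr : (0 : ℝ) ≤ r := r.2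
  have h1 := measure_mono (μ := volume) (hsub (r + 1) (by positivity))
  refine le_trans ?_ h1
  rw [Complex.volume_ball, ← ENNReal.ofReal_pow (by positivity)]
  rw [show (NNReal.pi : ENNReal) = ENNReal.ofReal Real.pi by
    rw [← NNReal.coe_real_pi, ENNReal.ofReal_coe_nnreal]]
  rw [← ENNReal.ofReal_mul (by positivity), ← ENNReal.ofReal_coe_nnreal]
  apply ENNReal.ofReal_le_ofReal
  have hpi := Real.pi_gt_three
  nlinarith [mul_nonneg hr hr]

end Pool.Agent.V1187.MA
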