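import Mathlib
import Pool.Agent.V1187.MA.Low
import Pool.Agent.H713R2.Area

/-!
Lower bounds for the area by the Taylor coefficients and by the absence of zeros of the
derivative.
-/

namespace Pool.Agent.V1187.MA

open Complex Filter Topology Set Metric MeasureTheory
open Pool.Agent.H713R2 (tc det_mul_real bessel polar_eq_circleMap hasSum_tc tc_deriv)

/-- The area of the image is at least `π ∑ n |a_n|²`, for every partial sum. -/
theorem area_low {f : ℂ → ℂ} (hd : DifferentiableOn ℂ f (ball 0 1))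
    (hinj : InjOn f (ball 0 1)) (K : ℕ) :
    ENNReal.ofReal (Real.pi * ∑ k ∈ Finset.range K, ‖tc (deriv f) k‖ ^ 2 / (k + 1)) ≤
      volume (f '' ball 0 1) := by
  have hpi := Real.pi_pos
  set F : ℂ → ℂ := deriv f with hFdef
  have hF : DifferentiableOn ℂ F (ball 0 1) := hd.deriv isOpen_ball
  set A : Set ℂ := ball 0 1 with hA
  have hAm : MeasurableSet A := measurableSet_ball
  have h1 := lintegral_abs_det_fderiv_eq_addHaar_image (volume : Measure ℂ) hAm
    (f := f) (f' := fun x => (ContinuousLinearMap.toSpanSingleton ℂ (F x)).restrictScalars ℝ)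
    (fun x hx => (((hd.differentiableAt (isOpen_ball.mem_nhds hx)).hasDerivAt).hasFDerivAt.restrictScalars
      ℝ).hasFDerivWithinAt) hinj
  simp only [det_mul_real] at h1
  rw [← h1, ← lintegral_indicator hAm, ← Complex.lintegral_comp_polarCoord_symm]
  set S : Set (ℝ × ℝ) := Ioo (0 : ℝ) 1 ×ˢ Ioo (-Real.pi) Real.pi with hS
  have hSm : MeasurableSet S := measurableSet_Ioo.prod measurableSet_Ioo
  have hST : S ⊆ polarCoord.target := by
    rw [polarCoord_target]
    apply prod_mono _ subset_rfl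
    intro r hr
    exact hr.1
  have hmem : ∀ q ∈ S, circleMap 0 q.1 q.2 ∈ A ∧ ‖circleMap 0 q.1 q.2‖ = q.1 := by
    intro q hq
    have h3 : ‖circleMap 0 q.1 q.2‖ = q.1 := by
      rw [norm_circleMap_zero, abs_of_pos hq.1.1]
    refine ⟨?_, h3⟩
    rw [hA, mem_ball_zero_iff, h3]
    exact hq.1.2
  refine le_trans ?_ (lintegral_mono_set hST)
  have h3 : ∫⁻ q in S, ENNReal.ofReal (q.1 * ‖F (circleMap 0 q.1 q.2)‖ ^ 2) ≤
      ∫⁻ p in S, ENNReal.ofReal p.1 •
        A.indicator (fun x => ENNReal.ofReal |‖F x‖ ^ 2|) (Complex.polarCoord.symm p) := by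
    apply setLIntegral_mono_ae' hSm
    refine Filter.Eventually.of_forall fun q hq => ?_
    obtain ⟨h4, h5⟩ := hmem q hq
    have hq0 : 0 < q.1 := hq.1.1
    rw [polar_eq_circleMap, indicator_of_mem h4, smul_eq_mul, ← ENNReal.ofReal_mul hq0.le]
    apply ENNReal.ofReal_le_ofReal
    rw [abs_of_nonneg (by positivity)]
  refine le_trans ?_ h3
  -- Tonelli
  have hcont : ContinuousOn (fun q : ℝ × ℝ => q.1 * ‖F (circleMap 0 q.1 q.2)‖ ^ 2) S := by
    apply ContinuousOn.mul continuousOn_fst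
    apply ContinuousOn.pow
    apply ContinuousOn.norm
    apply hF.continuousOn.comp
    · apply Continuous.continuousOn
      unfold circleMap
      fun_prop
    · intro q hq
      exact (hmem q hq).1
  have hae : AEMeasurable (fun q : ℝ × ℝ => ENNReal.ofReal (q.1 * ‖F (circleMap 0 q.1 q.2)‖ ^ 2))
      (((volume : Measure ℝ).prod (volume : Measure ℝ)).restrict S) :=
    (hcont.aemeasurable hSm).ennreal_ofReal
  rw [Measure.volume_eq_prod, hS, setLIntegral_prod _ hae]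
  have h4 : ∫⁻ r in Ioo (0 : ℝ) 1,
      ENNReal.ofReal (2 * Real.pi * ∑ k ∈ Finset.range K, ‖tc F k‖ ^ 2 * r ^ (2 * k + 1)) ≤
      ∫⁻ r in Ioo (0 : ℝ) 1, ∫⁻ θ in Ioo (-Real.pi) Real.pi,
        ENNReal.ofReal (r * ‖F (circleMap 0 r θ)‖ ^ 2) := by
    apply setLIntegral_mono_ae' measurableSet_Ioo
    refine Filter.Eventually.of_forall fun r hr => ?_
    have hr0 : 0 < r := hr.1
    have hc2 : Continuous (fun θ : ℝ => r * ‖F (circleMap 0 r θ)‖ ^ 2) := by
      apply continuous_const.mul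
      apply Continuous.pow
      apply Continuous.norm
      apply hF.continuousOn.comp_continuous (continuous_circleMap 0 r)
      intro θ
      rw [mem_ball_zero_iff, norm_circleMap_zero, abs_of_pos hr0]
      exact hr.2
    have h5 : ∫⁻ θ in Ioo (-Real.pi) Real.pi, ENNReal.ofReal (r * ‖F (circleMap 0 r θ)‖ ^ 2) =
        ENNReal.ofReal (∫ θ in (-Real.pi)..Real.pi, r * ‖F (circleMap 0 r θ)‖ ^ 2) := by
      rw [restrict_Ioo_eq_restrict_Ioc, intervalIntegral.integral_of_le (by linarith)]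
      rw [ofReal_integral_eq_lintegral_ofReal]
      · exact (hc2.intervalIntegrable _ _).1
      · exact Filter.Eventually.of_forall fun θ => by positivity
    rw [h5]
    apply ENNReal.ofReal_le_ofReal
    rw [intervalIntegral.integral_const_mul]
    have h6 := bessel hF hr0 hr.2 K
    calc 2 * Real.pi * ∑ k ∈ Finset.range K, ‖tc F k‖ ^ 2 * r ^ (2 * k + 1)
        = r * (2 * Real.pi * ∑ k ∈ Finset.range K, ‖tc F k‖ ^ 2 * r ^ (2 * k)) := by
          rw [Finset.mul_sum, Finset.mul_sum, Finset.mul_sum]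
          apply Finset.sum_congr rfl
          intro k _
          ring
      _ ≤ _ := mul_le_mul_of_nonneg_left h6 hr0.le
  refine le_trans (le_of_eq ?_) h4
  have h5 : ∫⁻ r in Ioo (0 : ℝ) 1,
      ENNReal.ofReal (2 * Real.pi * ∑ k ∈ Finset.range K, ‖tc F k‖ ^ 2 * r ^ (2 * k + 1)) =
      ENNReal.ofReal (∫ r in (0 : ℝ)..1,
        2 * Real.pi * ∑ k ∈ Finset.range K, ‖tc F k‖ ^ 2 * r ^ (2 * k + 1)) := by
    rw [restrict_Ioo_eq_restrict_Ioc, intervalIntegral.integral_of_le (by norm_num)]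
    rw [ofReal_integral_eq_lintegral_ofReal]
    · have hc3 : Continuous (fun r : ℝ =>
        2 * Real.pi * ∑ k ∈ Finset.range K, ‖tc F k‖ ^ 2 * r ^ (2 * k + 1)) := by fun_prop
      exact (hc3.intervalIntegrable _ _).1
    · rw [Filter.EventuallyLE, ae_restrict_iff' measurableSet_Ioc]
      refine Filter.Eventually.of_forall fun r hr => ?_
      have hr0 : 0 < r := hr.1
      simp only [Pi.zero_apply]
      positivity
  rw [h5, intervalIntegral.integral_const_mul, intervalIntegral.integral_finsetSum]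
  · congr 1
    rw [mul_comm (2 : ℝ) Real.pi, mul_assoc]
    congr 1
    rw [Finset.mul_sum]
    refine Finset.sum_congr rfl fun k _ => ?_
    rw [intervalIntegral.integral_const_mul, integral_pow, one_pow, zero_pow (by omega)]
    push_cast
    have h9 : (0 : ℝ) < (k : ℝ) + 1 := by positivity
    field_simp
    ring
  · intro k _
    exact (Continuous.intervalIntegrable (by fun_prop) _ _)

lemma tc_zero {f : ℂ → ℂ} (h : InS f) : tc (deriv f) 0 = 1 := by
  unfold tc
  simp [h.one]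

lemma tc_one {f : ℂ → ℂ} : tc (deriv f) 1 = 2 * a2 f := by
  unfold tc a2
  rw [iteratedDeriv_one]
  simp
  ring

lemma deriv_ne {f : ℂ → ℂ} (h : InS f) {z : ℂ} (hz : z ∈ ball (0 : ℂ) 1) : deriv f z ≠ 0 :=
  Pool.Agent.Helper405.Conv.deriv_ne_zero_of_injOn isOpen_ball h.diff h.inj hz

/-- The derivative cannot be too close to its linear part on a circle beyond the zero of that
linear part. -/
theorem far {f : ℂ → ℂ} (h : InS f) {r : ℝ} (hr : 1 < 2 * ‖a2 f‖ * r) (hr1 : r < 1) :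
    ∃ z : ℂ, ‖z‖ = r ∧ 2 * ‖a2 f‖ * r - 1 ≤ ‖deriv f z - (1 + 2 * a2 f * z)‖ := by
  set a := a2 f with ha
  have hr0 : 0 < r := by
    by_contra hcon
    push Not at hcon
    nlinarith [norm_nonneg a]
  have ha0 : a ≠ 0 := by
    intro h0
    rw [h0, norm_zero] at hr
    linarith
  by_contra hcon
  push Not at hcon
  have hsub : closedBall (0 : ℂ) r ⊆ ball 0 1 := closedBall_subset_ball hr1
  have hF : DifferentiableOn ℂ (deriv f) (ball 0 1) := h.diff.deriv isOpen_ball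
  set u : ℂ → ℂ := fun z => Complex.exp (-((1 + 2 * a * z) / deriv f z)) with hu
  have hud : DifferentiableOn ℂ u (ball 0 1) := by
    intro z hz
    apply DifferentiableAt.differentiableWithinAt
    have h1 : DifferentiableAt ℂ (deriv f) z := hF.differentiableAt (isOpen_ball.mem_nhds hz)
    have h2 : DifferentiableAt ℂ (fun z : ℂ => 1 + 2 * a * z) z := by fun_prop
    exact ((h2.div h1 (deriv_ne h hz)).neg).cexp
  have hcl : DiffContOnCl ℂ u (ball 0 r) := by
    refine ⟨hud.mono (ball_subset_closedBall.trans hsub), ?_⟩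
    rw [closure_ball _ hr0.ne']
    exact (hud.mono hsub).continuousOn
  obtain ⟨z, hz, hmax⟩ := Complex.exists_mem_frontier_isMaxOn_norm isBounded_ball
    ⟨0, mem_ball_self hr0⟩ hcl
  rw [frontier_ball _ hr0.ne', mem_sphere_zero_iff_norm] at hz
  rw [closure_ball _ hr0.ne'] at hmax
  set z0 : ℂ := -(1 / (2 * a)) with hz0
  have hz0n : ‖z0‖ ≤ r := by
    rw [hz0, norm_neg, norm_div, norm_one, norm_mul, show ‖(2 : ℂ)‖ = 2 by simp]
    rw [div_le_iff₀ (by positivity)]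
    linarith
  have h1 : ‖u z0‖ ≤ ‖u z‖ := hmax (mem_closedBall_zero_iff.2 hz0n)
  have h2 : u z0 = 1 := by
    simp only [hu, hz0]
    have : (1 : ℂ) + 2 * a * -(1 / (2 * a)) = 0 := by
      field_simp
      ring
    rw [this, zero_div, neg_zero, Complex.exp_zero]
  rw [h2, norm_one] at h1
  have hzb : z ∈ ball (0 : ℂ) 1 := by
    rw [mem_ball_zero_iff, hz]; exact hr1
  have h3 := hcon z hz
  set L : ℂ := 1 + 2 * a * z with hL
  have h4 : 2 * ‖a‖ * r - 1 ≤ ‖L‖ := by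
    have h5 := norm_sub_norm_le (2 * a * z) (-1 : ℂ)
    rw [norm_neg, norm_one, norm_mul, norm_mul, hz, show ‖(2 : ℂ)‖ = 2 by simp] at h5
    have h6 : 2 * a * z - -1 = L := by rw [hL]; ring
    rw [h6] at h5
    exact h5
  have h5 : ‖deriv f z - L‖ < ‖L‖ := lt_of_lt_of_le h3 h4
  have hne := deriv_ne h hzb
  -- positive real part
  have h6 : 0 < (L / deriv f z).re := by
    have h7 : ‖deriv f z - L‖ ^ 2 < ‖L‖ ^ 2 :=
      pow_lt_pow_left₀ h5 (norm_nonneg _) two_ne_zero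
    rw [← Complex.normSq_eq_norm_sq, ← Complex.normSq_eq_norm_sq, Complex.normSq_apply,
      Complex.normSq_apply, Complex.sub_re, Complex.sub_im] at h7
    have hn : 0 < Complex.normSq (deriv f z) := Complex.normSq_pos.2 hne
    rw [Complex.div_re, ← add_div]
    apply div_pos _ hn
    rw [Complex.normSq_apply] at hn
    nlinarith
  have h8 : ‖u z‖ < 1 := by
    simp only [hu]
    rw [Complex.norm_exp, Complex.neg_re, Real.exp_lt_one_iff]
    linarith
  linarith

lemma geom2 {x : ℝ} (hx : 0 ≤ x) (hx1 : x < 1) (K : ℕ) :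
    ∑ k ∈ Finset.range K, ((k : ℝ) + 1) * x ^ k ≤ 1 / (1 - x) ^ 2 := by
  have h1 : ∀ K : ℕ, (1 - x) ^ 2 * ∑ k ∈ Finset.range K, ((k : ℝ) + 1) * x ^ k =
      1 - ((K : ℝ) + 1) * x ^ K + K * x ^ (K + 1) := by
    intro K
    induction K with
    | zero => simp
    | succ n ih =>
      rw [Finset.sum_range_succ, mul_add, ih]
      push_cast
      ring
  rw [le_div_iff₀ (by nlinarith), mul_comm, h1]
  have h2 : 0 ≤ x ^ K := pow_nonneg hx K
  have h3 : (K : ℝ) * x ^ (K + 1) ≤ K * x ^ K := by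
    apply mul_le_mul_of_nonneg_left _ (Nat.cast_nonneg K)
    rw [pow_succ]
    nlinarith
  nlinarith

/-- The bound from the absence of zeros of the derivative. -/
theorem area_zero_free {f : ℂ → ℂ} (h : InS f) {r : ℝ} (hr : 1 < 2 * ‖a2 f‖ * r) (hr1 : r < 1) :
    ENNReal.ofReal (Real.pi * (1 + 2 * ‖a2 f‖ ^ 2 +
      (1 - r ^ 2) ^ 2 * (2 * ‖a2 f‖ * r - 1) ^ 2)) ≤ volume (f '' ball 0 1) := by
  have hpi := Real.pi_pos
  have hr0 : 0 < r := by
    by_contra hcon
    push Not at hcon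
    nlinarith [norm_nonneg (a2 f)]
  by_cases hV : volume (f '' ball 0 1) = ⊤
  · rw [hV]; exact le_top
  obtain ⟨v, hv0, hv⟩ : ∃ v : ℝ, 0 ≤ v ∧ volume (f '' ball 0 1) = ENNReal.ofReal v :=
    ⟨(volume (f '' ball 0 1)).toReal, ENNReal.toReal_nonneg, (ENNReal.ofReal_toReal hV).symm⟩
  have hlow := area_low h.diff h.inj
  rw [hv]
  simp only [hv] at hlow
  apply ENNReal.ofReal_le_ofReal
  have hlow' : ∀ K, Real.pi * ∑ k ∈ Finset.range K, ‖tc (deriv f) k‖ ^ 2 / (k + 1) ≤ v := fun K =>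
    (ENNReal.ofReal_le_ofReal_iff hv0).1 (hlow K)
  set F := deriv f with hF
  have hFd : DifferentiableOn ℂ F (ball 0 1) := h.diff.deriv isOpen_ball
  set E : ℝ := v / Real.pi - 1 - 2 * ‖a2 f‖ ^ 2 with hE
  have hE1 : ∀ K, ∑ k ∈ Finset.range K, ‖tc F (k + 2)‖ ^ 2 / ((k : ℝ) + 3) ≤ E := by
    intro K
    have h1 := hlow' (K + 2)
    rw [Finset.sum_range_succ' _ (K + 1), Finset.sum_range_succ' _ K] at h1
    have h2 : tc F (0 + 1) = 2 * a2 f := tc_one
    have h3 : tc F 0 = 1 := tc_zero h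
    rw [h2, h3] at h1
    have h4 : ∑ k ∈ Finset.range K, ‖tc F (k + 1 + 1)‖ ^ 2 / (((k + 1 + 1 : ℕ) : ℝ) + 1) =
        ∑ k ∈ Finset.range K, ‖tc F (k + 2)‖ ^ 2 / ((k : ℝ) + 3) := by
      refine Finset.sum_congr rfl fun k _ => ?_
      congr 1
      push_cast
      ring
    rw [h4, norm_mul, norm_one, show ‖(2 : ℂ)‖ = 2 by simp] at h1
    rw [hE]
    have h5 : Real.pi * (∑ k ∈ Finset.range K, ‖tc F (k + 2)‖ ^ 2 / ((k : ℝ) + 3) +
        (2 * ‖a2 f‖) ^ 2 / (((0 + 1 : ℕ) : ℝ) + 1) + 1 ^ 2 / (((0 : ℕ) : ℝ) + 1)) / Real.pi ≤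
        v / Real.pi := div_le_div_of_nonneg_right h1 hpi.le
    rw [mul_div_cancel_left₀ _ hpi.ne'] at h5
    push_cast at h5
    norm_num at h5
    nlinarith
  have hE0 : 0 ≤ E := by simpa using hE1 0
  -- Cauchy-Schwarz
  have hCS : ∀ z : ℂ, ‖z‖ = r → ∀ K, ‖∑ k ∈ Finset.range K, tc F (k + 2) * z ^ (k + 2)‖ ≤
      Real.sqrt E * (1 / (1 - r ^ 2)) := by
    intro z hz K
    have h1 : ‖∑ k ∈ Finset.range K, tc F (k + 2) * z ^ (k + 2)‖ ≤
        ∑ k ∈ Finset.range K, (‖tc F (k + 2)‖ / Real.sqrt ((k : ℝ) + 3)) *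
          (Real.sqrt ((k : ℝ) + 3) * r ^ (k + 2)) := by
      refine (norm_sum_le _ _).trans (Finset.sum_le_sum fun k _ => ?_)
      have h2 : Real.sqrt ((k : ℝ) + 3) ≠ 0 := (Real.sqrt_pos.2 (by positivity)).ne'
      rw [norm_mul, norm_pow, hz]
      apply le_of_eq
      field_simp
    refine h1.trans ?_
    refine (Real.sum_mul_le_sqrt_mul_sqrt _ _ _).trans ?_
    apply mul_le_mul
    · apply Real.sqrt_le_sqrt
      refine le_trans (le_of_eq ?_) (hE1 K)
      refine Finset.sum_congr rfl fun k _ => ?_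
      rw [div_pow, Real.sq_sqrt (by positivity)]
    · have hx1 : r ^ 2 < 1 := by nlinarith
      rw [Real.sqrt_le_left (by
        have : 0 < 1 - r ^ 2 := by linarith
        positivity)]
      have h2 : ∑ k ∈ Finset.range K, (Real.sqrt ((k : ℝ) + 3) * r ^ (k + 2)) ^ 2 =
          ∑ k ∈ Finset.range K, (((k + 2 : ℕ) : ℝ) + 1) * (r ^ 2) ^ (k + 2) := by
        refine Finset.sum_congr rfl fun k _ => ?_
        rw [mul_pow, Real.sq_sqrt (by positivity)]
        push_cast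
        ring
      rw [h2]
      have h3 := geom2 (sq_nonneg r) hx1 (K + 2)
      rw [Finset.sum_range_succ' _ (K + 1), Finset.sum_range_succ' _ K] at h3
      rw [div_pow, one_pow]
      refine le_trans ?_ h3
      have h4 : (0 : ℝ) ≤ (((0 + 1 : ℕ) : ℝ) + 1) * (r ^ 2) ^ (0 + 1) +
        (((0 : ℕ) : ℝ) + 1) * (r ^ 2) ^ 0 := by positivity
      linarith
    · exact Real.sqrt_nonneg _
    · exact Real.sqrt_nonneg _
  obtain ⟨z, hz, hfar⟩ := far h hr hr1
  have hzb : z ∈ ball (0 : ℂ) 1 := by rw [mem_ball_zero_iff, hz]; exact hr1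
  have hsum := hasSum_tc hFd hzb
  have hten : Tendsto (fun K => ∑ k ∈ Finset.range K, tc F (k + 2) * z ^ (k + 2)) atTop
      (𝓝 (F z - (1 + 2 * a2 f * z))) := by
    have h1 := (hasSum_nat_add_iff' 2).2 hsum
    have h2 : F z - ∑ i ∈ Finset.range 2, tc F i * z ^ i = F z - (1 + 2 * a2 f * z) := by
      rw [Finset.sum_range_succ, Finset.sum_range_one, tc_zero h, tc_one]
      ring
    rw [h2] at h1
    exact h1.tendsto_sum_nat
  have h1 : ‖F z - (1 + 2 * a2 f * z)‖ ≤ Real.sqrt E * (1 / (1 - r ^ 2)) :=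
    le_of_tendsto hten.norm (Filter.Eventually.of_forall (hCS z hz))
  have h2 : 2 * ‖a2 f‖ * r - 1 ≤ Real.sqrt E * (1 / (1 - r ^ 2)) := hfar.trans h1
  have hx : 0 < 1 - r ^ 2 := by nlinarith
  have h3 : (1 - r ^ 2) * (2 * ‖a2 f‖ * r - 1) ≤ Real.sqrt E := by
    rw [mul_one_div, le_div_iff₀ hx] at h2
    linarith
  have h4 : ((1 - r ^ 2) * (2 * ‖a2 f‖ * r - 1)) ^ 2 ≤ E := by
    have h5 : 0 ≤ (1 - r ^ 2) * (2 * ‖a2 f‖ * r - 1) := by
      apply mul_nonneg hx.le
      linarith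
    calc ((1 - r ^ 2) * (2 * ‖a2 f‖ * r - 1)) ^ 2 ≤ (Real.sqrt E) ^ 2 :=
          pow_le_pow_left₀ h5 h3 2
      _ = E := Real.sq_sqrt hE0
  rw [mul_pow, hE] at h4
  have h5 : v = Real.pi * (v / Real.pi) := by field_simp
  rw [h5]
  apply mul_le_mul_of_nonneg_left _ hpi.le
  linarith

/-- The bound from `|a₂² - a₃| ≤ 1`. -/
theorem area_third {f : ℂ → ℂ} (h : InS f) (ha : 1 ≤ ‖a2 f‖) :
    ENNReal.ofReal (Real.pi * (1 + 2 * ‖a2 f‖ ^ 2 + 3 * (‖a2 f‖ ^ 2 - 1) ^ 2)) ≤
      volume (f '' ball 0 1) := by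
  have hpi := Real.pi_pos
  refine le_trans (ENNReal.ofReal_le_ofReal ?_) (area_low h.diff h.inj 3)
  apply mul_le_mul_of_nonneg_left _ hpi.le
  rw [Finset.sum_range_succ, Finset.sum_range_succ, Finset.sum_range_one, tc_zero h, tc_one]
  have h1 := fs f h.diff h.inj h.zero h.one
  have h2 : tc (deriv f) 2 = 3 * Pool.Agent.Helper859.SP.coeff 3 f := by
    rw [tc_deriv]
    unfold tc Pool.Agent.Helper859.SP.coeff
    push_cast
    ring
  have h3 : Pool.Agent.Helper859.SP.coeff 2 f = a2 f := by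
    unfold Pool.Agent.Helper859.SP.coeff a2
    rw [iteratedDeriv_succ, iteratedDeriv_one]
    norm_num [Nat.factorial]
  rw [h3] at h1
  set b := Pool.Agent.Helper859.SP.coeff 3 f with hb
  rw [h2, norm_mul, norm_mul, norm_one, show ‖(2 : ℂ)‖ = 2 by simp,
    show ‖(3 : ℂ)‖ = 3 by simp]
  have h4 : ‖a2 f‖ ^ 2 - 1 ≤ ‖b‖ := by
    have h5 := norm_sub_norm_le (a2 f ^ 2) b
    rw [norm_pow] at h5
    linarith
  have h6 : 0 ≤ ‖a2 f‖ ^ 2 - 1 := by nlinarith
  have h7 : (‖a2 f‖ ^ 2 - 1) ^ 2 ≤ ‖b‖ ^ 2 := pow_le_pow_left₀ h6 h4 2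
  push_cast
  nlinarith

end Pool.Agent.V1187.MA
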