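import Mathlib
import Pool.Agent.V1187.MA.Low

/-!
Pick functions: univalent functions with given second coefficient and small image.
-/

namespace Pool.Agent.V1187.MA

open Complex Filter Topology Set Metric MeasureTheory

/-- The Cayley transform. -/
noncomputable def pp (z : ℂ) : ℂ := (1 + z) / (1 - z)

lemma one_sub_ne {z : ℂ} (hz : z ∈ ball (0 : ℂ) 1) : 1 - z ≠ 0 := by
  rw [mem_ball_zero_iff] at hz
  intro h
  have : z = 1 := (sub_eq_zero.1 h).symm
  rw [this, norm_one] at hz
  exact lt_irrefl _ hz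

lemma pp_re {z : ℂ} (hz : z ∈ ball (0 : ℂ) 1) : 0 < (pp z).re := by
  have hne := one_sub_ne hz
  rw [mem_ball_zero_iff] at hz
  have hn : 0 < Complex.normSq (1 - z) := Complex.normSq_pos.2 hne
  unfold pp
  rw [Complex.div_re, ← add_div]
  apply div_pos _ hn
  have h1 : Complex.normSq z < 1 := by
    rw [Complex.normSq_eq_norm_sq]
    nlinarith [norm_nonneg z]
  rw [Complex.normSq_apply] at h1
  simp only [Complex.add_re, Complex.sub_re, Complex.add_im, Complex.sub_im, Complex.one_re,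
    Complex.one_im]
  nlinarith

/-- The radicand. -/
noncomputable def rad (M : ℝ) (z : ℂ) : ℂ := 1 - 1 / (M : ℂ) + pp z ^ 2 / (M : ℂ)

lemma rad_mem {M : ℝ} (hM : 1 ≤ M) {z : ℂ} (hz : z ∈ ball (0 : ℂ) 1) :
    rad M z ∈ slitPlane := by
  have hp := pp_re hz
  have hM0 : (0 : ℝ) < M := by linarith
  rw [Complex.mem_slitPlane_iff]
  have hre : (rad M z).re = 1 - 1 / M + ((pp z).re ^ 2 - (pp z).im ^ 2) / M := by
    unfold rad
    rw [Complex.add_re, Complex.sub_re, Complex.one_re, Complex.div_ofReal_re,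
      Complex.div_ofReal_re, Complex.one_re, sq, Complex.mul_re]
    ring
  have him : (rad M z).im = 2 * (pp z).re * (pp z).im / M := by
    unfold rad
    rw [Complex.add_im, Complex.sub_im, Complex.one_im, Complex.div_ofReal_im,
      Complex.div_ofReal_im, Complex.one_im, sq, Complex.mul_im]
    ring
  by_cases h : (pp z).im = 0
  · left
    rw [hre, h]
    have h1 : 0 ≤ 1 - 1 / M := by
      rw [sub_nonneg, div_le_one hM0]; exact hM
    have h2 : 0 < ((pp z).re ^ 2 - 0 ^ 2) / M := by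
      apply div_pos _ hM0
      have := pow_pos hp 2
      linarith
    linarith
  · right
    rw [him]
    have h2 : (pp z).re ≠ 0 := hp.ne'
    have h3 : M ≠ 0 := hM0.ne'
    positivity

/-- The square root with positive real part. -/
noncomputable def qq (M : ℝ) (z : ℂ) : ℂ := Complex.exp (Complex.log (rad M z) / 2)

lemma qq_sq {M : ℝ} (hM : 1 ≤ M) {z : ℂ} (hz : z ∈ ball (0 : ℂ) 1) : qq M z ^ 2 = rad M z := by
  unfold qq
  rw [← Complex.exp_nat_mul]
  have : ((2 : ℕ) : ℂ) * (Complex.log (rad M z) / 2) = Complex.log (rad M z) := by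
    push_cast; ring
  rw [this, Complex.exp_log (Complex.slitPlane_ne_zero (rad_mem hM hz))]

lemma qq_re {M : ℝ} (hM : 1 ≤ M) {z : ℂ} (hz : z ∈ ball (0 : ℂ) 1) : 0 < (qq M z).re := by
  unfold qq
  rw [Complex.exp_re]
  apply mul_pos (Real.exp_pos _)
  apply Real.cos_pos_of_mem_Ioo
  have h1 : (Complex.log (rad M z) / 2).im = Complex.arg (rad M z) / 2 := by
    have := Complex.div_ofReal_im (Complex.log (rad M z)) 2
    push_cast at this
    rw [this, Complex.log_im]
  rw [h1]
  have h2 := Complex.neg_pi_lt_arg (rad M z)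
  have h3 : Complex.arg (rad M z) < Real.pi := by
    have := (Complex.mem_slitPlane_iff_arg.1 (rad_mem hM hz)).1
    exact lt_of_le_of_ne (Complex.arg_le_pi _) this
  constructor <;> linarith

/-- The Pick function of height `M`. -/
noncomputable def pick (M : ℝ) (z : ℂ) : ℂ := (M : ℂ) * ((qq M z - 1) / (qq M z + 1))

lemma qq_add_ne {M : ℝ} (hM : 1 ≤ M) {z : ℂ} (hz : z ∈ ball (0 : ℂ) 1) : qq M z + 1 ≠ 0 := by
  intro h
  have h1 := qq_re hM hz
  have h2 : (qq M z + 1).re = 0 := by rw [h]; simp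
  rw [Complex.add_re, Complex.one_re] at h2
  linarith

lemma pick_norm {M : ℝ} (hM : 1 ≤ M) {z : ℂ} (hz : z ∈ ball (0 : ℂ) 1) : ‖pick M z‖ < M := by
  have h1 := qq_re hM hz
  have hne := qq_add_ne hM hz
  unfold pick
  rw [norm_mul, Complex.norm_real, Real.norm_of_nonneg (by linarith), norm_div]
  have h2 : ‖qq M z - 1‖ < ‖qq M z + 1‖ := by
    apply lt_of_pow_lt_pow_left₀ 2 (norm_nonneg _)
    rw [← Complex.normSq_eq_norm_sq, ← Complex.normSq_eq_norm_sq]
    simp only [Complex.normSq_apply, Complex.add_re, Complex.sub_re, Complex.add_im,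
      Complex.sub_im, Complex.one_re, Complex.one_im]
    nlinarith
  have h3 : ‖qq M z - 1‖ / ‖qq M z + 1‖ < 1 := by
    rw [div_lt_one (norm_pos_iff.2 hne)]
    exact h2
  nlinarith

lemma pick_inj {M : ℝ} (hM : 1 ≤ M) : InjOn (pick M) (ball 0 1) := by
  intro z hz y hy h
  have hM0 : (M : ℂ) ≠ 0 := by
    have : M ≠ 0 := by linarith
    exact_mod_cast this
  unfold pick at h
  have h1 := mul_left_cancel₀ hM0 h
  rw [div_eq_div_iff (qq_add_ne hM hz) (qq_add_ne hM hy)] at h1
  have h2 : qq M z = qq M y := by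
    have : (2 : ℂ) * qq M z = 2 * qq M y := by linear_combination h1
    exact mul_left_cancel₀ two_ne_zero this
  have h3 : rad M z = rad M y := by rw [← qq_sq hM hz, ← qq_sq hM hy, h2]
  unfold rad at h3
  have h4 : pp z ^ 2 = pp y ^ 2 := by
    have := add_left_cancel h3
    field_simp at this
    exact this
  have h5 : (pp z - pp y) * (pp z + pp y) = 0 := by linear_combination h4
  have h6 : pp z + pp y ≠ 0 := by
    intro h0
    have h7 := pp_re hz
    have h8 := pp_re hy
    have h9 : (pp z + pp y).re = 0 := by rw [h0]; simp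
    rw [Complex.add_re] at h9
    linarith
  have h7 : pp z = pp y := by
    rcases mul_eq_zero.1 h5 with h | h
    · exact sub_eq_zero.1 h
    · exact absurd h h6
  unfold pp at h7
  rw [div_eq_div_iff (one_sub_ne hz) (one_sub_ne hy)] at h7
  have : (2 : ℂ) * z = 2 * y := by linear_combination h7
  exact mul_left_cancel₀ two_ne_zero this

lemma pick_diff {M : ℝ} (hM : 1 ≤ M) : DifferentiableOn ℂ (pick M) (ball 0 1) := by
  intro z hz
  apply DifferentiableAt.differentiableWithinAt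
  have hM0 : (M : ℂ) ≠ 0 := by
    have : M ≠ 0 := by linarith
    exact_mod_cast this
  have h1 : DifferentiableAt ℂ pp z := by
    unfold pp
    exact DifferentiableAt.div (by fun_prop) (by fun_prop) (one_sub_ne hz)
  have h2 : DifferentiableAt ℂ (rad M) z := by
    unfold rad
    exact ((h1.pow 2).div_const _).const_add _
  have h3 : DifferentiableAt ℂ (qq M) z := by
    unfold qq
    exact ((h2.clog (rad_mem hM hz)).div_const _).cexp
  unfold pick
  exact ((h3.sub_const _).div (h3.add_const _) (qq_add_ne hM hz)).const_mul _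

/-- The functional equation. -/
lemma pick_eq {M : ℝ} (hM : 1 ≤ M) {z : ℂ} (hz : z ∈ ball (0 : ℂ) 1) :
    pick M z * (1 - z) ^ 2 = z * (1 - pick M z / (M : ℂ)) ^ 2 := by
  have hM0 : (M : ℂ) ≠ 0 := by
    have : M ≠ 0 := by linarith
    exact_mod_cast this
  have h1 := qq_sq hM hz
  have hq := qq_add_ne hM hz
  have hz1 := one_sub_ne hz
  unfold rad pp at h1
  have h2 : (qq M z ^ 2 - 1) * (M : ℂ) * (1 - z) ^ 2 = 4 * z := by
    rw [h1]
    field_simp
    ring
  unfold pick
  have h3 : 1 - (M : ℂ) * ((qq M z - 1) / (qq M z + 1)) / (M : ℂ) = 2 / (qq M z + 1) := by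
    field_simp
    ring
  rw [h3]
  have h4 : (M : ℂ) * ((qq M z - 1) / (qq M z + 1)) * (1 - z) ^ 2 =
      ((qq M z ^ 2 - 1) * (M : ℂ) * (1 - z) ^ 2) / (qq M z + 1) ^ 2 := by
    field_simp
    ring
  rw [h4, h2]
  field_simp
  ring

lemma pick_zero {M : ℝ} (hM : 1 ≤ M) : pick M 0 = 0 := by
  have := pick_eq hM zero_mem
  simpa using this

lemma pick_E1 {M : ℝ} (hM : 1 ≤ M) {z : ℂ} (hz : z ∈ ball (0 : ℂ) 1) :
    deriv (pick M) z * (1 - z) ^ 2 + pick M z * (2 * (1 - z) * (-1)) =
      1 * (1 - pick M z / (M : ℂ)) ^ 2 +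
        z * (2 * (1 - pick M z / (M : ℂ)) * (-(deriv (pick M) z / (M : ℂ)))) := by
  have hf : HasDerivAt (pick M) (deriv (pick M) z) z :=
    ((pick_diff hM).differentiableAt (isOpen_ball.mem_nhds hz)).hasDerivAt
  have h1 : HasDerivAt (fun z => pick M z * (1 - z) ^ 2)
      (deriv (pick M) z * (1 - z) ^ 2 + pick M z * (2 * (1 - z) * (-1))) z := by
    have h := hf.mul (((hasDerivAt_id z).const_sub 1).pow 2)
    refine h.congr_deriv ?_
    simp
  have h2 : HasDerivAt (fun z => z * (1 - pick M z / (M : ℂ)) ^ 2)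
      (1 * (1 - pick M z / (M : ℂ)) ^ 2 +
        z * (2 * (1 - pick M z / (M : ℂ)) * (-(deriv (pick M) z / (M : ℂ))))) z := by
    have h := (hasDerivAt_id z).mul (((hf.div_const (M : ℂ)).const_sub 1).pow 2)
    refine h.congr_deriv ?_
    simp
  have h3 : (fun z => pick M z * (1 - z) ^ 2) =ᶠ[𝓝 z]
      (fun z => z * (1 - pick M z / (M : ℂ)) ^ 2) := by
    filter_upwards [isOpen_ball.mem_nhds hz] with y hy
    exact pick_eq hM hy
  exact h1.unique (h2.congr_of_eventuallyEq h3)

lemma pick_one {M : ℝ} (hM : 1 ≤ M) : deriv (pick M) 0 = 1 := by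
  have := pick_E1 hM zero_mem
  rw [pick_zero hM] at this
  simpa using this

lemma pick_two {M : ℝ} (hM : 1 ≤ M) : deriv (deriv (pick M)) 0 = 4 - 4 / (M : ℂ) := by
  have hf : HasDerivAt (pick M) (deriv (pick M) 0) 0 :=
    ((pick_diff hM).differentiableAt (isOpen_ball.mem_nhds zero_mem)).hasDerivAt
  have hf' : HasDerivAt (deriv (pick M)) (deriv (deriv (pick M)) 0) 0 :=
    (((pick_diff hM).deriv isOpen_ball).differentiableAt
      (isOpen_ball.mem_nhds zero_mem)).hasDerivAt
  have hid : HasDerivAt (fun z : ℂ => 1 - z) (-1) 0 := by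
    simpa using (hasDerivAt_id (0 : ℂ)).const_sub 1
  have hid' : HasDerivAt (fun z : ℂ => z) 1 0 := hasDerivAt_id 0
  have hu : HasDerivAt (fun z => 1 - pick M z / (M : ℂ)) (-(deriv (pick M) 0 / (M : ℂ))) 0 :=
    (hf.div_const (M : ℂ)).const_sub 1
  have h1 := (hf'.mul (hid.pow 2)).add (hf.mul ((hid.const_mul 2).mul_const (-1)))
  have h2 := ((hu.pow 2).const_mul 1).add
    (hid'.mul ((hu.const_mul 2).mul ((hf'.div_const (M : ℂ)).neg)))
  have h3 : (fun z => deriv (pick M) z * (1 - z) ^ 2 + pick M z * (2 * (1 - z) * (-1))) =ᶠ[𝓝 0]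
      (fun z => 1 * (1 - pick M z / (M : ℂ)) ^ 2 +
        z * (2 * (1 - pick M z / (M : ℂ)) * (-(deriv (pick M) z / (M : ℂ))))) := by
    filter_upwards [isOpen_ball.mem_nhds zero_mem] with y hy
    exact pick_E1 hM hy
  have h4 := HasDerivAt.unique h1 (HasDerivAt.congr_of_eventuallyEq h2 h3)
  simp only [Pi.pow_apply, Pi.mul_apply, Pi.neg_apply, pick_zero hM, pick_one hM] at h4
  norm_num at h4
  linear_combination h4

/-- For every `a` with `|a| < 2` there is a function of class `S` with `a₂ = a` and image in the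
disc of radius `2 / (2 - |a|)`. -/
theorem exists_small (a : ℂ) (ha : ‖a‖ < 2) :
    ∃ f : ℂ → ℂ, InS f ∧ a2 f = a ∧ f '' ball 0 1 ⊆ ball 0 (2 / (2 - ‖a‖)) := by
  obtain ⟨e, he, hea⟩ : ∃ e : ℂ, ‖e‖ = 1 ∧ a = e * (‖a‖ : ℂ) := by
    by_cases h : a = 0
    · exact ⟨1, norm_one, by simp [h]⟩
    · refine ⟨a / (‖a‖ : ℂ), ?_, ?_⟩
      · rw [norm_div, Complex.norm_real, norm_norm, div_self (norm_ne_zero_iff.2 h)]
      · have : (‖a‖ : ℂ) ≠ 0 := by exact_mod_cast norm_ne_zero_iff.2 h
        field_simp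
  have he0 : e ≠ 0 := by
    intro h
    rw [h, norm_zero] at he
    exact zero_ne_one he
  set M : ℝ := 2 / (2 - ‖a‖) with hMdef
  have hd : 0 < 2 - ‖a‖ := by linarith
  have hM : 1 ≤ M := by
    rw [hMdef, le_div_iff₀ hd]
    linarith [norm_nonneg a]
  have hmaps : ∀ z ∈ ball (0 : ℂ) 1, e * z ∈ ball (0 : ℂ) 1 := by
    intro z hz
    rw [mem_ball_zero_iff] at hz ⊢
    rwa [norm_mul, he, one_mul]
  set f : ℂ → ℂ := fun z => e⁻¹ * pick M (e * z) with hf
  have hp : ∀ z ∈ ball (0 : ℂ) 1, HasDerivAt (pick M) (deriv (pick M) z) z := fun z hz =>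
    ((pick_diff hM).differentiableAt (isOpen_ball.mem_nhds hz)).hasDerivAt
  have hlin : ∀ z : ℂ, HasDerivAt (fun z => e * z) e z := fun z => by
    simpa using (hasDerivAt_id z).const_mul e
  have hfd : ∀ z ∈ ball (0 : ℂ) 1, HasDerivAt f (deriv (pick M) (e * z)) z := by
    intro z hz
    have h1 := ((hp (e * z) (hmaps z hz)).comp z (hlin z)).const_mul e⁻¹
    refine h1.congr_deriv ?_
    field_simp
  have hS : InS f := by
    refine ⟨fun z hz => (hfd z hz).differentiableAt.differentiableWithinAt, ?_, ?_, ?_⟩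
    · intro z hz y hy h
      have h1 := mul_left_cancel₀ (inv_ne_zero he0) h
      exact mul_left_cancel₀ he0 (pick_inj hM (hmaps z hz) (hmaps y hy) h1)
    · simp [hf, pick_zero hM]
    · rw [(hfd 0 zero_mem).deriv, mul_zero, pick_one hM]
  refine ⟨f, hS, ?_, ?_⟩
  · have e1 : deriv f =ᶠ[𝓝 0] fun z => deriv (pick M) (e * z) := by
      filter_upwards [isOpen_ball.mem_nhds zero_mem] with z hz
      exact (hfd z hz).deriv
    unfold a2
    rw [e1.deriv_eq]
    have h2 : HasDerivAt (deriv (pick M)) (deriv (deriv (pick M)) (e * 0)) (e * 0) := by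
      rw [mul_zero]
      exact (((pick_diff hM).deriv isOpen_ball).differentiableAt
        (isOpen_ball.mem_nhds zero_mem)).hasDerivAt
    have h3 := (h2.comp (0 : ℂ) (hlin 0)).deriv
    have h4 : deriv (fun z => deriv (pick M) (e * z)) 0 = deriv (deriv (pick M)) (e * 0) * e := h3
    rw [h4, mul_zero, pick_two hM]
    have h5 : (4 : ℂ) - 4 / (M : ℂ) = 2 * (‖a‖ : ℂ) := by
      have hd' : ((2 - ‖a‖ : ℝ) : ℂ) ≠ 0 := by exact_mod_cast hd.ne'
      have h6 : (M : ℂ) = 2 / ((2 - ‖a‖ : ℝ) : ℂ) := by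
        rw [hMdef]; push_cast; rfl
      rw [h6]
      field_simp
      push_cast
      ring
    rw [h5]
    conv_rhs => rw [hea]
    ring
  · rintro _ ⟨z, hz, rfl⟩
    rw [mem_ball_zero_iff]
    simp only [hf]
    rw [norm_mul, norm_inv, he, inv_one, one_mul]
    exact pick_norm hM (hmaps z hz)

end Pool.Agent.V1187.MA
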