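import Mathlib
import Pool.Agent.V1187.MA.Low
import Pool.Agent.H713R2.Area

/-!
The area of the image of the disc under a univalent cubic, and an upper bound for the least area.
-/

namespace Pool.Agent.V1187.MA

open Complex Filter Topology Set Metric MeasureTheory
open Pool.Agent.H713R2 (det_mul_real polar_eq_circleMap)

/-- The derivative of the cubic. -/
noncomputable def FF (p q : ℝ) (z : ℂ) : ℂ := 1 + p * z + q * z ^ 2

/-- The cubic. -/
noncomputable def fc (p q : ℝ) (z : ℂ) : ℂ := z + (p / 2 : ℝ) * z ^ 2 + (q / 3 : ℝ) * z ^ 3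

lemma fc_deriv (p q : ℝ) (z : ℂ) : HasDerivAt (fc p q) (FF p q z) z := by
  have h := ((hasDerivAt_id z).add (((hasDerivAt_id z).pow 2).const_mul ((p / 2 : ℝ) : ℂ))).add
    (((hasDerivAt_id z).pow 3).const_mul ((q / 3 : ℝ) : ℂ))
  refine h.congr_deriv ?_
  unfold FF
  simp
  ring

lemma normSq_circle (p q r θ : ℝ) : ‖FF p q (circleMap 0 r θ)‖ ^ 2 =
    1 + p ^ 2 * r ^ 2 + q ^ 2 * r ^ 4 + 2 * p * (1 + q * r ^ 2) * r * Real.cos θ +
      2 * q * r ^ 2 * Real.cos (2 * θ) := by
  have hre : (circleMap 0 r θ).re = r * Real.cos θ := by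
    simp [circleMap, Complex.exp_ofReal_mul_I_re]
  have him : (circleMap 0 r θ).im = r * Real.sin θ := by
    simp [circleMap, Complex.exp_ofReal_mul_I_im]
  rw [← Complex.normSq_eq_norm_sq, Complex.normSq_apply]
  unfold FF
  simp only [Complex.add_re, Complex.add_im, Complex.one_re, Complex.one_im, Complex.mul_re,
    Complex.mul_im, Complex.ofReal_re, Complex.ofReal_im, sq, hre, him]
  have hs : Real.sin θ * Real.sin θ = 1 - Real.cos θ * Real.cos θ := by
    have := Real.sin_sq_add_cos_sq θ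
    nlinarith
  rw [Real.cos_two_mul]
  have e : ∀ s c : ℝ, s * s = 1 - c * c →
      (1 + (p * (r * c) - 0 * (r * s)) + (q * ((r * c) * (r * c) - (r * s) * (r * s)) -
        0 * ((r * c) * (r * s) + (r * s) * (r * c)))) *
      (1 + (p * (r * c) - 0 * (r * s)) + (q * ((r * c) * (r * c) - (r * s) * (r * s)) -
        0 * ((r * c) * (r * s) + (r * s) * (r * c)))) +
      (0 + (p * (r * s) + 0 * (r * c)) + (q * ((r * c) * (r * s) + (r * s) * (r * c)) +
        0 * ((r * c) * (r * c) - (r * s) * (r * s)))) *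
      (0 + (p * (r * s) + 0 * (r * c)) + (q * ((r * c) * (r * s) + (r * s) * (r * c)) +
        0 * ((r * c) * (r * c) - (r * s) * (r * s)))) =
      1 + p ^ 2 * r ^ 2 + q ^ 2 * r ^ 4 + 2 * p * (1 + q * r ^ 2) * r * c +
        2 * q * r ^ 2 * (2 * c ^ 2 - 1) := by
    intro s c h
    have h2 : s * s * (s * s) = (1 - c * c) * (1 - c * c) := by rw [h]
    linear_combination (p ^ 2 * r ^ 2 - 2 * q * r ^ 2 + 2 * p * q * r ^ 3 * c +
      2 * q ^ 2 * r ^ 4 * c ^ 2) * h + q ^ 2 * r ^ 4 * h2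
  have := e (Real.sin θ) (Real.cos θ) hs
  linarith

lemma circle_integral (p q r : ℝ) :
    ∫ θ in (-Real.pi)..Real.pi, r * ‖FF p q (circleMap 0 r θ)‖ ^ 2 =
      2 * Real.pi * (r * (1 + p ^ 2 * r ^ 2 + q ^ 2 * r ^ 4)) := by
  have e1 : (fun θ : ℝ => r * ‖FF p q (circleMap 0 r θ)‖ ^ 2) = fun θ : ℝ =>
      (r * (1 + p ^ 2 * r ^ 2 + q ^ 2 * r ^ 4) +
        (r * (2 * p * (1 + q * r ^ 2) * r)) * Real.cos θ) +
        (r * (2 * q * r ^ 2)) * Real.cos (2 * θ) := by
    funext θ
    rw [normSq_circle]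
    ring
  have key : ∀ A B C : ℝ, ∫ θ in (-Real.pi)..Real.pi, ((A + B * Real.cos θ) +
      C * Real.cos (2 * θ)) = 2 * Real.pi * A := by
    intro A B C
    rw [intervalIntegral.integral_add, intervalIntegral.integral_add,
      intervalIntegral.integral_const, intervalIntegral.integral_const_mul,
      intervalIntegral.integral_const_mul, integral_cos,
      intervalIntegral.integral_comp_mul_left (fun x => Real.cos x) two_ne_zero, integral_cos]
    · simp
      left
      ring
    · exact Continuous.intervalIntegrable (by fun_prop) _ _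
    · exact Continuous.intervalIntegrable (by fun_prop) _ _
    · exact Continuous.intervalIntegrable (by fun_prop) _ _
    · exact Continuous.intervalIntegrable (by fun_prop) _ _
  rw [e1]
  exact key _ _ _

theorem area_poly {p q : ℝ} (hinj : InjOn (fc p q) (ball 0 1)) :
    volume (fc p q '' ball 0 1) ≤ ENNReal.ofReal (Real.pi * (1 + p ^ 2 / 2 + q ^ 2 / 3)) := by
  have hpi := Real.pi_pos
  set F : ℂ → ℂ := FF p q with hFdef
  have hFc : Continuous F := by
    rw [hFdef]
    unfold FF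
    fun_prop
  set A : Set ℂ := ball 0 1 with hA
  have hAm : MeasurableSet A := measurableSet_ball
  have h1 := lintegral_abs_det_fderiv_eq_addHaar_image (volume : Measure ℂ) hAm
    (f := fc p q) (f' := fun x => (ContinuousLinearMap.toSpanSingleton ℂ (F x)).restrictScalars ℝ)
    (fun x hx => ((fc_deriv p q x).hasFDerivAt.restrictScalars ℝ).hasFDerivWithinAt) hinj
  simp only [det_mul_real] at h1
  rw [← h1, ← lintegral_indicator hAm, ← Complex.lintegral_comp_polarCoord_symm]
  set S : Set (ℝ × ℝ) := Ioo (0 : ℝ) 1 ×ˢ Ioo (-Real.pi) Real.pi with hS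
  have hSm : MeasurableSet S := measurableSet_Ioo.prod measurableSet_Ioo
  have hST : S ⊆ polarCoord.target := by
    rw [polarCoord_target]
    apply prod_mono _ subset_rfl
    intro r hr
    exact hr.1
  have hle : ∫⁻ p in polarCoord.target, ENNReal.ofReal p.1 •
        A.indicator (fun x => ENNReal.ofReal |‖F x‖ ^ 2|) (Complex.polarCoord.symm p) ≤
      ∫⁻ p in polarCoord.target, S.indicator
        (fun q => ENNReal.ofReal (q.1 * ‖F (circleMap 0 q.1 q.2)‖ ^ 2)) p := by
    apply setLIntegral_mono_ae' polarCoord.open_target.measurableSet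
    refine Filter.Eventually.of_forall fun q hq => ?_
    rw [polarCoord_target] at hq
    have hq0 : 0 < q.1 := hq.1
    have h3 : ‖circleMap 0 q.1 q.2‖ = q.1 := by
      rw [norm_circleMap_zero, abs_of_pos hq0]
    rw [polar_eq_circleMap]
    by_cases hm : q.1 < 1
    · have hqS : q ∈ S := ⟨⟨hq0, hm⟩, hq.2⟩
      have hqA : circleMap 0 q.1 q.2 ∈ A := by rw [hA, mem_ball_zero_iff, h3]; exact hm
      rw [indicator_of_mem hqS, indicator_of_mem hqA, smul_eq_mul, ← ENNReal.ofReal_mul hq0.le]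
      apply ENNReal.ofReal_le_ofReal
      rw [abs_of_nonneg (by positivity)]
    · have hqA : circleMap 0 q.1 q.2 ∉ A := by rw [hA, mem_ball_zero_iff, h3]; exact hm
      rw [indicator_of_notMem hqA, smul_zero]
      exact zero_le
  refine hle.trans ?_
  rw [lintegral_indicator hSm, Measure.restrict_restrict hSm, inter_eq_left.2 hST]
  -- Tonelli
  have hcont : Continuous (fun q : ℝ × ℝ => q.1 * ‖F (circleMap 0 q.1 q.2)‖ ^ 2) := by
    have h2 : Continuous (fun q : ℝ × ℝ => circleMap 0 q.1 q.2) := by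
      unfold circleMap
      fun_prop
    exact continuous_fst.mul ((hFc.comp h2).norm.pow 2)
  have hae : AEMeasurable (fun q : ℝ × ℝ => ENNReal.ofReal (q.1 * ‖F (circleMap 0 q.1 q.2)‖ ^ 2))
      (((volume : Measure ℝ).prod (volume : Measure ℝ)).restrict S) :=
    (hcont.measurable.ennreal_ofReal).aemeasurable
  rw [Measure.volume_eq_prod, hS, setLIntegral_prod _ hae]
  have h4 : ∫⁻ r in Ioo (0 : ℝ) 1, ∫⁻ θ in Ioo (-Real.pi) Real.pi,
        ENNReal.ofReal (r * ‖F (circleMap 0 r θ)‖ ^ 2) =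
      ∫⁻ r in Ioo (0 : ℝ) 1,
        ENNReal.ofReal (2 * Real.pi * (r * (1 + p ^ 2 * r ^ 2 + q ^ 2 * r ^ 4))) := by
    apply setLIntegral_congr_fun measurableSet_Ioo
    intro r hr
    have hr0 : 0 < r := hr.1
    have hc2 : Continuous (fun θ : ℝ => r * ‖F (circleMap 0 r θ)‖ ^ 2) :=
      continuous_const.mul ((hFc.comp (continuous_circleMap 0 r)).norm.pow 2)
    simp only
    rw [← circle_integral, restrict_Ioo_eq_restrict_Ioc,
      intervalIntegral.integral_of_le (by linarith)]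
    rw [ofReal_integral_eq_lintegral_ofReal]
    · exact (hc2.intervalIntegrable _ _).1
    · exact Filter.Eventually.of_forall fun θ => by positivity
  rw [h4]
  have h5 : ∫⁻ r in Ioo (0 : ℝ) 1,
      ENNReal.ofReal (2 * Real.pi * (r * (1 + p ^ 2 * r ^ 2 + q ^ 2 * r ^ 4))) =
      ENNReal.ofReal (∫ r in (0 : ℝ)..1,
        2 * Real.pi * (r * (1 + p ^ 2 * r ^ 2 + q ^ 2 * r ^ 4))) := by
    rw [restrict_Ioo_eq_restrict_Ioc, intervalIntegral.integral_of_le (by norm_num)]
    rw [ofReal_integral_eq_lintegral_ofReal]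
    · have hc3 : Continuous (fun r : ℝ =>
        2 * Real.pi * (r * (1 + p ^ 2 * r ^ 2 + q ^ 2 * r ^ 4))) := by fun_prop
      exact (hc3.intervalIntegrable _ _).1
    · rw [Filter.EventuallyLE, ae_restrict_iff' measurableSet_Ioc]
      refine Filter.Eventually.of_forall fun r hr => ?_
      have hr0 : 0 < r := hr.1
      simp only [Pi.zero_apply]
      positivity
  rw [h5]
  apply le_of_eq
  congr 1
  have e1 : (fun r : ℝ => 2 * Real.pi * (r * (1 + p ^ 2 * r ^ 2 + q ^ 2 * r ^ 4))) =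
      fun r : ℝ => ((2 * Real.pi) * r ^ 1 + (2 * Real.pi * p ^ 2) * r ^ 3) +
        (2 * Real.pi * q ^ 2) * r ^ 5 := by
    funext r
    ring
  rw [e1, intervalIntegral.integral_add, intervalIntegral.integral_add,
    intervalIntegral.integral_const_mul, intervalIntegral.integral_const_mul,
    intervalIntegral.integral_const_mul, integral_pow, integral_pow, integral_pow]
  · norm_num
    ring
  · exact Continuous.intervalIntegrable (by fun_prop) _ _
  · exact Continuous.intervalIntegrable (by fun_prop) _ _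
  · exact Continuous.intervalIntegrable (by fun_prop) _ _
  · exact Continuous.intervalIntegrable (by fun_prop) _ _

/-- Univalence from a derivative with positive real part. -/
theorem nw {f F : ℂ → ℂ} (hf : ∀ z ∈ ball (0 : ℂ) 1, HasDerivAt f (F z) z)
    (hre : ∀ z ∈ ball (0 : ℂ) 1, 0 < (F z).re) : InjOn f (ball 0 1) := by
  intro z hz w hw hzw
  by_contra hne
  have hd : z - w ≠ 0 := sub_ne_zero.2 hne
  have hseg : ∀ t : ℝ, t ∈ Icc (0 : ℝ) 1 → w + (t : ℂ) * (z - w) ∈ ball (0 : ℂ) 1 := by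
    intro t ht
    have := (convex_ball (0 : ℂ) 1) hw hz (by linarith [ht.2] : (0 : ℝ) ≤ 1 - t) ht.1 (by ring)
    have e : (1 - t) • w + t • z = w + (t : ℂ) * (z - w) := by
      rw [Complex.real_smul, Complex.real_smul]
      push_cast
      ring
    rwa [e] at this
  set g : ℝ → ℝ := fun t => (f (w + (t : ℂ) * (z - w)) / (z - w)).re with hg
  have hgd : ∀ t ∈ Icc (0 : ℝ) 1, HasDerivAt g ((F (w + (t : ℂ) * (z - w))).re) t := by
    intro t ht
    have h1 : HasDerivAt (fun s : ℂ => w + s * (z - w)) (z - w) (t : ℂ) := by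
      simpa using ((hasDerivAt_id (t : ℂ)).mul_const (z - w)).const_add w
    have h2 : HasDerivAt (fun s : ℂ => f (w + s * (z - w)) / (z - w))
        (F (w + (t : ℂ) * (z - w))) (t : ℂ) := by
      have := ((hf _ (hseg t ht)).comp (t : ℂ) h1).div_const (z - w)
      refine this.congr_deriv ?_
      field_simp
    exact h2.real_of_complex
  have hmono : g 0 < g 1 := by
    have hm : StrictMonoOn g (Icc 0 1) := by
      apply strictMonoOn_of_deriv_pos (convex_Icc 0 1)
      · intro t ht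
        exact (hgd t ht).continuousAt.continuousWithinAt
      · intro t ht
        rw [interior_Icc] at ht
        have ht' : t ∈ Icc (0 : ℝ) 1 := ⟨ht.1.le, ht.2.le⟩
        rw [(hgd t ht').deriv]
        exact hre _ (hseg t ht')
    exact hm (left_mem_Icc.2 zero_le_one) (right_mem_Icc.2 zero_le_one) zero_lt_one
  have h0 : g 0 = (f w / (z - w)).re := by simp [hg]
  have h1 : g 1 = (f z / (z - w)).re := by simp [hg]
  rw [h0, h1, hzw] at hmono
  exact lt_irrefl _ hmono

lemma re_pos {e : ℝ} (he : 0 ≤ e) (he1 : e ≤ 1 / 3) {z : ℂ} (hz : z ∈ ball (0 : ℂ) 1) :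
    0 < (FF (1 + e) e z).re := by
  rw [mem_ball_zero_iff] at hz
  have h1 : z.re ^ 2 + z.im ^ 2 < 1 := by
    have : ‖z‖ ^ 2 < 1 := by nlinarith [norm_nonneg z]
    rw [← Complex.normSq_eq_norm_sq, Complex.normSq_apply] at this
    nlinarith
  unfold FF
  have e1 : (1 + ((1 + e : ℝ) : ℂ) * z + (e : ℂ) * z ^ 2).re =
      1 + (1 + e) * z.re + e * (z.re ^ 2 - z.im ^ 2) := by
    simp only [Complex.add_re, Complex.one_re, Complex.mul_re, Complex.ofReal_re,
      Complex.ofReal_im, sq, Complex.mul_im]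
    ring
  rw [e1]
  have h2 : z.im ^ 2 < 1 - z.re ^ 2 := by linarith
  have hx : -1 < z.re := by nlinarith [sq_nonneg z.im]
  have hx1 : z.re < 1 := by nlinarith [sq_nonneg z.im]
  have h3 : e * (z.re ^ 2 - z.im ^ 2) ≥ e * (2 * z.re ^ 2 - 1) := by
    apply mul_le_mul_of_nonneg_left _ he
    linarith
  have h4 : 1 + (1 + e) * z.re + e * (2 * z.re ^ 2 - 1) = (1 + z.re) * (1 - e + 2 * e * z.re) := by
    ring
  have h5 : 0 ≤ 1 - e + 2 * e * z.re := by nlinarith
  by_cases h6 : e = 0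
  · rw [h6]
    linarith
  · have h7 : 0 < 1 - e + 2 * e * z.re := by
      have : 0 < e := lt_of_le_of_ne he (Ne.symm h6)
      nlinarith
    have h8 : 0 < (1 + z.re) * (1 - e + 2 * e * z.re) := mul_pos (by linarith) h7
    linarith

/-- For `1/2 ≤ |a| ≤ 2/3` there is a function of class `S` with `a₂ = a` and image of area at most
`π (1 + 2 |a|² + (2 |a| - 1)² / 3)`. -/
theorem exists_cubic (a : ℂ) (ha : 1 / 2 ≤ ‖a‖) (ha1 : ‖a‖ ≤ 2 / 3) :
    ∃ f : ℂ → ℂ, InS f ∧ a2 f = a ∧ volume (f '' ball 0 1) ≤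
      ENNReal.ofReal (Real.pi * (1 + 2 * ‖a‖ ^ 2 + (2 * ‖a‖ - 1) ^ 2 / 3)) := by
  have han : a ≠ 0 := by
    intro h
    rw [h, norm_zero] at ha
    norm_num at ha
  set ε : ℝ := 2 * ‖a‖ - 1 with hε
  have hε0 : 0 ≤ ε := by rw [hε]; linarith
  have hε1 : ε ≤ 1 / 3 := by rw [hε]; linarith
  set e : ℂ := a / (‖a‖ : ℂ) with hedef
  have hac : (‖a‖ : ℂ) ≠ 0 := by exact_mod_cast norm_ne_zero_iff.2 han
  have he : ‖e‖ = 1 := by
    rw [hedef, norm_div, Complex.norm_real, norm_norm, div_self (norm_ne_zero_iff.2 han)]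
  have hea : e * (‖a‖ : ℂ) = a := by rw [hedef]; field_simp
  have he0 : e ≠ 0 := by
    intro h
    rw [h, norm_zero] at he
    exact zero_ne_one he
  set P := fc (1 + ε) ε with hP
  have hPinj : InjOn P (ball 0 1) := nw (fun z _ => fc_deriv _ _ z) (fun z hz => re_pos hε0 hε1 hz)
  have hmaps : ∀ z ∈ ball (0 : ℂ) 1, e * z ∈ ball (0 : ℂ) 1 := by
    intro z hz
    rw [mem_ball_zero_iff] at hz ⊢
    rwa [norm_mul, he, one_mul]
  set f : ℂ → ℂ := fun z => e⁻¹ * P (e * z) with hf
  have hlin : ∀ z : ℂ, HasDerivAt (fun z => e * z) e z := fun z => by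
    simpa using (hasDerivAt_id z).const_mul e
  have hfd : ∀ z, HasDerivAt f (FF (1 + ε) ε (e * z)) z := by
    intro z
    have h1 := ((fc_deriv (1 + ε) ε (e * z)).comp z (hlin z)).const_mul e⁻¹
    refine h1.congr_deriv ?_
    field_simp
  have hder : deriv f = fun z => FF (1 + ε) ε (e * z) := funext fun z => (hfd z).deriv
  refine ⟨f, ⟨fun z _ => (hfd z).differentiableAt.differentiableWithinAt, ?_, ?_, ?_⟩, ?_, ?_⟩
  · intro z hz y hy h
    have h1 := mul_left_cancel₀ (inv_ne_zero he0) h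
    exact mul_left_cancel₀ he0 (hPinj (hmaps z hz) (hmaps y hy) h1)
  · simp [hf, hP, fc]
  · rw [hder]
    simp [FF]
  · unfold a2
    rw [hder]
    have h2 : HasDerivAt (fun z => FF (1 + ε) ε (e * z)) (((1 + ε : ℝ) : ℂ) * e) 0 := by
      unfold FF
      have h3 := ((((hlin 0).const_mul ((1 + ε : ℝ) : ℂ)).const_add 1).add
        (((hlin 0).pow 2).const_mul (ε : ℂ)))
      refine h3.congr_deriv ?_
      simp
    rw [h2.deriv]
    have h4 : ((1 + ε : ℝ) : ℂ) = 2 * (‖a‖ : ℂ) := by
      rw [hε]; push_cast; ring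
    rw [h4]
    conv_rhs => rw [← hea]
    ring
  · have himg : f '' ball 0 1 = ((ContinuousLinearMap.toSpanSingleton ℂ e⁻¹).restrictScalars ℝ :
        ℂ →L[ℝ] ℂ) '' (P '' ball 0 1) := by
      ext w
      constructor
      · rintro ⟨z, hz, rfl⟩
        refine ⟨P (e * z), ⟨e * z, hmaps z hz, rfl⟩, ?_⟩
        simp [hf, mul_comm]
      · rintro ⟨_, ⟨z, hz, rfl⟩, rfl⟩
        refine ⟨e⁻¹ * z, ?_, ?_⟩
        · rw [mem_ball_zero_iff] at hz ⊢
          rwa [norm_mul, norm_inv, he, inv_one, one_mul]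
        · simp only [hf]
          rw [mul_inv_cancel_left₀ he0]
          simp [mul_comm]
    have hdet : LinearMap.det (((ContinuousLinearMap.toSpanSingleton ℂ e⁻¹).restrictScalars ℝ :
        ℂ →L[ℝ] ℂ) : ℂ →ₗ[ℝ] ℂ) = ‖e⁻¹‖ ^ 2 := det_mul_real e⁻¹
    rw [himg, Measure.addHaar_image_continuousLinearMap, hdet, norm_inv, he]
    simp only [inv_one, one_pow, abs_one, ENNReal.ofReal_one, one_mul]
    refine (area_poly hPinj).trans (ENNReal.ofReal_le_ofReal ?_)
    apply mul_le_mul_of_nonneg_left _ Real.pi_pos.le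
    rw [hε]
    apply le_of_eq
    ring

end Pool.Agent.V1187.MA
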