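import Mathlib
import Pool.Agent.V1187.MA.Mid

/-!
Partial sums of bounded univalent functions.
-/

namespace Pool.Agent.V1187.MA

open Complex Filter Topology Set Metric MeasureTheory
open Pool.Agent.H713R2 (tc bessel hasSum_tc tc_deriv tc_mul tc_unique)

/-- The area bound for the coefficients. -/
theorem coef_area {f : ℂ → ℂ} (h : InS f) {M : ℝ} (hM : 0 ≤ M)
    (hb : ∀ z ∈ ball (0 : ℂ) 1, ‖f z‖ ≤ M) (n : ℕ) :
    ∑ k ∈ Finset.range n, ((k : ℝ) + 1) * ‖tc f (k + 1)‖ ^ 2 ≤ M ^ 2 := by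
  have hpi := Real.pi_pos
  have h1 := area_low h.diff h.inj n
  have h2 : volume (f '' ball 0 1) ≤ ENNReal.ofReal (Real.pi * M ^ 2) := by
    refine (measure_mono (t := closedBall 0 M) ?_).trans ?_
    · rintro _ ⟨z, hz, rfl⟩
      rw [mem_closedBall_zero_iff]
      exact hb z hz
    · rw [Complex.volume_closedBall, ← ENNReal.ofReal_pow hM]
      rw [show (NNReal.pi : ENNReal) = ENNReal.ofReal Real.pi by
        rw [← NNReal.coe_real_pi, ENNReal.ofReal_coe_nnreal]]
      rw [← ENNReal.ofReal_mul (by positivity), mul_comm]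
  have h3 := (ENNReal.ofReal_le_ofReal_iff (by positivity)).1 (h1.trans h2)
  have h4 := le_of_mul_le_mul_left h3 hpi
  refine le_trans (le_of_eq ?_) h4
  refine Finset.sum_congr rfl fun k _ => ?_
  rw [tc_deriv, norm_mul]
  have h5 : ‖((k : ℂ) + 1)‖ = (k : ℝ) + 1 := by
    rw [show ((k : ℂ) + 1) = (((k : ℝ) + 1 : ℝ) : ℂ) by push_cast; rfl, Complex.norm_real,
      Real.norm_of_nonneg (by positivity)]
  rw [h5]
  have h6 : (0 : ℝ) < (k : ℝ) + 1 := by positivity
  field_simp

/-- The Fejer mean bound. -/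
theorem fejer {f : ℂ → ℂ} (hd : DifferentiableOn ℂ f (ball 0 1)) {M : ℝ} (hM : 0 ≤ M)
    (hb : ∀ z ∈ ball (0 : ℂ) 1, ‖f z‖ ≤ M) {w : ℂ} (hw : ‖w‖ = 1) (n : ℕ) :
    ‖∑ m ∈ Finset.range (n + 1), ((n : ℂ) + 1 - m) * (tc f m * w ^ m)‖ ≤ M * (n + 1) := by
  have hpi := Real.pi_pos
  set v : ℂ := (starRingEnd ℂ) w with hv
  have hvn : ‖v‖ = 1 := by rw [hv, RCLike.norm_conj, hw]
  have hwv : w * v = 1 := by
    rw [hv, Complex.mul_conj, Complex.normSq_eq_norm_sq, hw]
    norm_num
  set b : ℕ → ℂ := fun k => if k ∈ Finset.range (n + 1) then v ^ k else 0 with hbdef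
  set P : ℂ → ℂ := fun z => ∑ j ∈ Finset.range (n + 1), v ^ j * z ^ j with hP
  have hPs : ∀ z, HasSum (fun j => b j * z ^ j) (P z) := by
    intro z
    have h1 : P z = ∑ j ∈ Finset.range (n + 1), b j * z ^ j := by
      rw [hP]
      refine Finset.sum_congr rfl fun j hj => ?_
      simp only [hbdef, if_pos hj]
    rw [h1]
    apply hasSum_sum_of_ne_finset_zero
    intro j hj
    simp only [hbdef, if_neg hj, zero_mul]
  have hPd : Differentiable ℂ P := by rw [hP]; fun_prop
  have hPc : Continuous P := hPd.continuous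
  have htP : tc P = b := (tc_unique one_pos hPd.differentiableOn
    (Filter.Eventually.of_forall fun x => hPs x)).symm
  set c : ℕ → ℂ := fun k => tc (fun z => f z * P z) k with hc
  have hck : ∀ k, c k = ∑ i ∈ Finset.range (k + 1), tc f i * b (k - i) := by
    intro k
    simp only [hc]
    rw [tc_mul one_pos hd hPd.differentiableOn, htP,
      Finset.Nat.sum_antidiagonal_eq_sum_range_succ (fun i j => tc f i * b j)]
  -- the circle integral of `P`
  have hPint : ∀ r : ℝ, 0 < r → r < 1 →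
      ∫ θ in (-Real.pi)..Real.pi, ‖P (circleMap 0 r θ)‖ ^ 2 ≤ 2 * Real.pi * (n + 1) := by
    intro r hr hr1
    have hsb : Summable fun j => ‖b j‖ * r ^ j := by
      apply summable_of_ne_finset_zero (s := Finset.range (n + 1))
      intro j hj
      simp only [hbdef, if_neg hj, norm_zero, zero_mul]
    have h1 := Pool.Agent.Helper405.Area.parseval hr.le hsb hsb (fun z _ => hPs z)
      (fun z _ => hPs z)
    have h2 : HasSum (fun j => (starRingEnd ℂ) (b j) * b j * ((r ^ (2 * j) : ℝ) : ℂ))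
        (∑ j ∈ Finset.range (n + 1), (starRingEnd ℂ) (b j) * b j * ((r ^ (2 * j) : ℝ) : ℂ)) := by
      apply hasSum_sum_of_ne_finset_zero
      intro j hj
      simp only [hbdef, if_neg hj, mul_zero, zero_mul]
    have h3 := h1.unique h2
    have h4 : ∀ θ : ℝ, (starRingEnd ℂ) (P (circleMap 0 r θ)) * P (circleMap 0 r θ) =
        ((‖P (circleMap 0 r θ)‖ ^ 2 : ℝ) : ℂ) := by
      intro θ
      rw [Complex.conj_mul']
      push_cast
      rfl
    simp only [h4] at h3
    rw [intervalIntegral.integral_ofReal] at h3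
    have h5 : ∑ j ∈ Finset.range (n + 1), (starRingEnd ℂ) (b j) * b j *
        ((r ^ (2 * j) : ℝ) : ℂ) = ((∑ j ∈ Finset.range (n + 1), r ^ (2 * j) : ℝ) : ℂ) := by
      rw [Complex.ofReal_sum]
      refine Finset.sum_congr rfl fun j hj => ?_
      simp only [hbdef, if_pos hj]
      rw [Complex.conj_mul', norm_pow, hvn]
      simp
    rw [h5] at h3
    have h6 : (2 * Real.pi)⁻¹ * ∫ θ in (0:ℝ)..(2 * Real.pi), ‖P (circleMap 0 r θ)‖ ^ 2 =
        ∑ j ∈ Finset.range (n + 1), r ^ (2 * j) := by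
      have : (((2 * Real.pi)⁻¹ * ∫ θ in (0:ℝ)..(2 * Real.pi), ‖P (circleMap 0 r θ)‖ ^ 2 : ℝ) : ℂ) =
          ((∑ j ∈ Finset.range (n + 1), r ^ (2 * j) : ℝ) : ℂ) := by
        rw [← h3]
        push_cast
        rfl
      exact_mod_cast this
    have hper : Function.Periodic (fun θ : ℝ => ‖P (circleMap 0 r θ)‖ ^ 2) (2 * Real.pi) := by
      intro θ
      simp only
      rw [periodic_circleMap 0 r θ]
    have h7 := hper.intervalIntegral_add_eq (-Real.pi) 0
    rw [show -Real.pi + 2 * Real.pi = Real.pi by ring, zero_add] at h7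
    rw [h7]
    have h8 : ∫ θ in (0:ℝ)..(2 * Real.pi), ‖P (circleMap 0 r θ)‖ ^ 2 =
        2 * Real.pi * ∑ j ∈ Finset.range (n + 1), r ^ (2 * j) := by
      rw [← h6]
      field_simp
    rw [h8]
    apply mul_le_mul_of_nonneg_left _ (by positivity)
    calc ∑ j ∈ Finset.range (n + 1), r ^ (2 * j) ≤ ∑ j ∈ Finset.range (n + 1), (1 : ℝ) :=
          Finset.sum_le_sum fun j _ => pow_le_one₀ hr.le hr1.le
      _ = (n : ℝ) + 1 := by simp
  -- Bessel for `f P`
  have hB : ∀ r : ℝ, 0 < r → r < 1 →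
      ∑ k ∈ Finset.range (n + 1), ‖c k‖ ^ 2 * r ^ (2 * k) ≤ M ^ 2 * (n + 1) := by
    intro r hr hr1
    have h1 := bessel (hd.mul hPd.differentiableOn) hr hr1 (n + 1)
    have hcm : ∀ θ, circleMap 0 r θ ∈ ball (0 : ℂ) 1 := by
      intro θ
      rw [mem_ball_zero_iff, norm_circleMap_zero, abs_of_pos hr]
      exact hr1
    have hcf : Continuous fun θ : ℝ => f (circleMap 0 r θ) :=
      hd.continuousOn.comp_continuous (continuous_circleMap 0 r) hcm
    have hcP : Continuous fun θ : ℝ => P (circleMap 0 r θ) :=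
      hPc.comp (continuous_circleMap 0 r)
    have h2 : ∫ θ in (-Real.pi)..Real.pi, ‖(fun z => f z * P z) (circleMap 0 r θ)‖ ^ 2 ≤
        ∫ θ in (-Real.pi)..Real.pi, M ^ 2 * ‖P (circleMap 0 r θ)‖ ^ 2 := by
      apply intervalIntegral.integral_mono_on (by linarith)
      · exact Continuous.intervalIntegrable ((hcf.mul hcP).norm.pow 2) _ _
      · exact Continuous.intervalIntegrable (continuous_const.mul (hcP.norm.pow 2)) _ _
      · intro θ _
        simp only
        rw [norm_mul, mul_pow]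
        apply mul_le_mul_of_nonneg_right _ (by positivity)
        exact pow_le_pow_left₀ (norm_nonneg _) (hb _ (hcm θ)) 2
    rw [intervalIntegral.integral_const_mul] at h2
    have h3 := mul_le_mul_of_nonneg_left (hPint r hr hr1) (sq_nonneg M)
    have h4 := (h1.trans h2).trans h3
    have h5 : 2 * Real.pi * ∑ k ∈ Finset.range (n + 1), ‖c k‖ ^ 2 * r ^ (2 * k) ≤
        2 * Real.pi * (M ^ 2 * (n + 1)) := by
      refine h4.trans (le_of_eq ?_)
      ring
    exact le_of_mul_le_mul_left h5 (by positivity)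
  have hB1 : ∑ k ∈ Finset.range (n + 1), ‖c k‖ ^ 2 ≤ M ^ 2 * (n + 1) := by
    have hcont : Tendsto (fun r : ℝ => ∑ k ∈ Finset.range (n + 1), ‖c k‖ ^ 2 * r ^ (2 * k))
        (𝓝[<] 1) (𝓝 (∑ k ∈ Finset.range (n + 1), ‖c k‖ ^ 2 * (1 : ℝ) ^ (2 * k))) := by
      apply tendsto_nhdsWithin_of_tendsto_nhds
      apply Continuous.tendsto
      fun_prop
    simp only [one_pow, mul_one] at hcont
    refine le_of_tendsto hcont ?_
    filter_upwards [Ioo_mem_nhdsLT (show (0 : ℝ) < 1 from zero_lt_one)] with r hr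
    exact hB r hr.1 hr.2
  -- the identity
  have hid : ∑ m ∈ Finset.range (n + 1), ((n : ℂ) + 1 - m) * (tc f m * w ^ m) =
      ∑ k ∈ Finset.range (n + 1), w ^ k * c k := by
    have h1 : ∀ k ∈ Finset.range (n + 1), w ^ k * c k =
        ∑ i ∈ Finset.range (k + 1), tc f i * w ^ i := by
      intro k hk
      rw [hck, Finset.mul_sum]
      refine Finset.sum_congr rfl fun i hi => ?_
      have hik : i ≤ k := by
        have := Finset.mem_range.1 hi
        omega
      have hb1 : b (k - i) = v ^ (k - i) := by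
        simp only [hbdef]
        rw [if_pos]
        rw [Finset.mem_range] at hk ⊢
        omega
      rw [hb1]
      have h2 : w ^ k = w ^ i * w ^ (k - i) := by rw [← pow_add]; congr 1; omega
      have h3 : w ^ (k - i) * v ^ (k - i) = 1 := by rw [← mul_pow, hwv, one_pow]
      rw [h2]
      linear_combination (tc f i * w ^ i) * h3
    rw [Finset.sum_congr rfl h1]
    clear h1
    have h4 : ∀ g : ℕ → ℂ, ∀ N : ℕ, ∑ m ∈ Finset.range N, ((N : ℂ) - m) * g m =
        ∑ k ∈ Finset.range N, ∑ i ∈ Finset.range (k + 1), g i := by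
      intro g N
      induction N with
      | zero => simp
      | succ N ih =>
        rw [Finset.sum_range_succ (fun k => ∑ i ∈ Finset.range (k + 1), g i), ← ih,
          Finset.sum_range_succ, Finset.sum_range_succ (fun i => g i)]
        have : ∑ m ∈ Finset.range N, (((N + 1 : ℕ) : ℂ) - m) * g m =
            ∑ m ∈ Finset.range N, ((N : ℂ) - m) * g m + ∑ m ∈ Finset.range N, g m := by
          rw [← Finset.sum_add_distrib]
          refine Finset.sum_congr rfl fun m _ => ?_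
          push_cast
          ring
        rw [this]
        push_cast
        ring
    have h5 := h4 (fun i => tc f i * w ^ i) (n + 1)
    push_cast at h5
    exact h5
  rw [hid]
  have h1 : ‖∑ k ∈ Finset.range (n + 1), w ^ k * c k‖ ≤
      ∑ k ∈ Finset.range (n + 1), 1 * ‖c k‖ := by
    refine (norm_sum_le _ _).trans (Finset.sum_le_sum fun k _ => ?_)
    rw [norm_mul, norm_pow, hw, one_pow]
  refine h1.trans ((Real.sum_mul_le_sqrt_mul_sqrt _ _ _).trans ?_)
  have h2 : ∑ k ∈ Finset.range (n + 1), (1 : ℝ) ^ 2 = (n : ℝ) + 1 := by simp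
  rw [h2]
  have h3 : Real.sqrt (∑ k ∈ Finset.range (n + 1), ‖c k‖ ^ 2) ≤ M * Real.sqrt ((n : ℝ) + 1) := by
    rw [Real.sqrt_le_left (by positivity), mul_pow, Real.sq_sqrt (by positivity)]
    exact hB1
  calc Real.sqrt ((n : ℝ) + 1) * Real.sqrt (∑ k ∈ Finset.range (n + 1), ‖c k‖ ^ 2)
      ≤ Real.sqrt ((n : ℝ) + 1) * (M * Real.sqrt ((n : ℝ) + 1)) :=
        mul_le_mul_of_nonneg_left h3 (Real.sqrt_nonneg _)
    _ = M * (Real.sqrt ((n : ℝ) + 1) * Real.sqrt ((n : ℝ) + 1)) := by ring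
    _ = M * (n + 1) := by rw [Real.mul_self_sqrt (by positivity)]

/-- Partial sums of bounded univalent functions are uniformly bounded. -/
theorem partial_sum_le {f : ℂ → ℂ} (h : InS f) {M : ℝ} (hM : 0 ≤ M)
    (hb : ∀ z ∈ ball (0 : ℂ) 1, ‖f z‖ ≤ M) {w : ℂ} (hw : ‖w‖ = 1) (n : ℕ) :
    ‖∑ m ∈ Finset.range (n + 1), tc f m * w ^ m‖ ≤
      M * (1 + Real.sqrt ((n : ℝ) / (2 * (n + 1)))) := by
  have hn : (0 : ℝ) < (n : ℝ) + 1 := by positivity
  have h1 := fejer h.diff hM hb hw n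
  have h2 : ‖∑ m ∈ Finset.range (n + 1), (m : ℂ) * (tc f m * w ^ m)‖ ≤
      Real.sqrt ((n : ℝ) * (n + 1) / 2) * M := by
    rw [Finset.sum_range_succ']
    have e0 : (((0 : ℕ) : ℂ)) * (tc f 0 * w ^ 0) = 0 := by simp
    rw [e0, add_zero]
    have h3 : ‖∑ k ∈ Finset.range n, ((k + 1 : ℕ) : ℂ) * (tc f (k + 1) * w ^ (k + 1))‖ ≤
        ∑ k ∈ Finset.range n, Real.sqrt ((k : ℝ) + 1) *
          (Real.sqrt ((k : ℝ) + 1) * ‖tc f (k + 1)‖) := by
      refine (norm_sum_le _ _).trans (Finset.sum_le_sum fun k _ => ?_)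
      rw [norm_mul, norm_mul, norm_pow, hw, one_pow, mul_one, Complex.norm_natCast,
        ← mul_assoc, Real.mul_self_sqrt (by positivity)]
      push_cast
      exact le_refl _
    refine h3.trans ((Real.sum_mul_le_sqrt_mul_sqrt _ _ _).trans ?_)
    apply mul_le_mul
    · apply Real.sqrt_le_sqrt
      apply le_of_eq
      have h4 : ∀ N : ℕ, ∑ k ∈ Finset.range N, Real.sqrt ((k : ℝ) + 1) ^ 2 =
          (N : ℝ) * (N + 1) / 2 := by
        intro N
        induction N with
        | zero => simp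
        | succ N ih =>
          rw [Finset.sum_range_succ, ih, Real.sq_sqrt (by positivity)]
          push_cast
          ring
      exact h4 n
    · rw [Real.sqrt_le_left hM]
      refine le_trans (le_of_eq ?_) (coef_area h hM hb n)
      refine Finset.sum_congr rfl fun k _ => ?_
      rw [mul_pow, Real.sq_sqrt (by positivity)]
    · exact Real.sqrt_nonneg _
    · exact Real.sqrt_nonneg _
  have h3 : ((n : ℂ) + 1) * ∑ m ∈ Finset.range (n + 1), tc f m * w ^ m =
      ∑ m ∈ Finset.range (n + 1), ((n : ℂ) + 1 - m) * (tc f m * w ^ m) +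
        ∑ m ∈ Finset.range (n + 1), (m : ℂ) * (tc f m * w ^ m) := by
    rw [Finset.mul_sum, ← Finset.sum_add_distrib]
    refine Finset.sum_congr rfl fun m _ => ?_
    ring
  have h4 : ((n : ℝ) + 1) * ‖∑ m ∈ Finset.range (n + 1), tc f m * w ^ m‖ ≤
      M * (n + 1) + Real.sqrt ((n : ℝ) * (n + 1) / 2) * M := by
    have h5 : ‖((n : ℂ) + 1)‖ = (n : ℝ) + 1 := by
      rw [show ((n : ℂ) + 1) = (((n : ℝ) + 1 : ℝ) : ℂ) by push_cast; rfl, Complex.norm_real,
        Real.norm_of_nonneg hn.le]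
    rw [← h5, ← norm_mul, h3]
    exact (norm_add_le _ _).trans (add_le_add (by rw [h5]; exact h1) (by rw [h5]; exact h2))
  have h6 : Real.sqrt ((n : ℝ) * (n + 1) / 2) =
      (n + 1) * Real.sqrt ((n : ℝ) / (2 * (n + 1))) := by
    rw [show (n : ℝ) * (n + 1) / 2 = (n + 1) ^ 2 * ((n : ℝ) / (2 * (n + 1))) by field_simp]
    rw [Real.sqrt_mul (by positivity), Real.sqrt_sq hn.le]
  rw [h6] at h4
  have h7 : ((n : ℝ) + 1) * ‖∑ m ∈ Finset.range (n + 1), tc f m * w ^ m‖ ≤
      (n + 1) * (M * (1 + Real.sqrt ((n : ℝ) / (2 * (n + 1))))) := by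
    refine h4.trans (le_of_eq ?_)
    ring
  exact le_of_mul_le_mul_left h7 hn

end Pool.Agent.V1187.MA
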