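import Mathlib
import Pool.Agent.V1187.MA.Part
import Pool.Agent.V1187.MA.Up

/-!
A lower bound for the partial sums of Pick functions.
-/

namespace Pool.Agent.V1187.MA

open Complex Filter Topology Set Metric MeasureTheory
open Pool.Agent.H713R2 (tc hasSum_tc)

/-- The size of a Pick function at a positive point. -/
lemma pick_large {M : ℝ} (hM : 1 ≤ M) {x : ℝ} (hx : 1 / 2 ≤ x) (hx1 : x < 1) :
    min (M / 4) (9 / 32 / (1 - x) ^ 2) ≤ ‖pick M (x : ℂ)‖ := by
  have hM0 : 0 < M := by linarith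
  have hz : (x : ℂ) ∈ ball (0 : ℂ) 1 := by
    rw [mem_ball_zero_iff, Complex.norm_real, Real.norm_of_nonneg (by linarith)]
    exact hx1
  by_cases h : M / 4 ≤ ‖pick M (x : ℂ)‖
  · exact (min_le_left _ _).trans h
  · push Not at h
    refine (min_le_right _ _).trans ?_
    have h1 := pick_eq hM hz
    have h2 : ‖pick M (x : ℂ) * (1 - (x : ℂ)) ^ 2‖ =
        ‖(x : ℂ) * (1 - pick M (x : ℂ) / (M : ℂ)) ^ 2‖ := by rw [h1]
    rw [norm_mul, norm_mul, norm_pow, norm_pow, Complex.norm_real,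
      Real.norm_of_nonneg (by linarith : (0 : ℝ) ≤ x)] at h2
    have h3 : ‖(1 : ℂ) - (x : ℂ)‖ = 1 - x := by
      rw [show (1 : ℂ) - (x : ℂ) = ((1 - x : ℝ) : ℂ) by push_cast; rfl, Complex.norm_real,
        Real.norm_of_nonneg (by linarith)]
    rw [h3] at h2
    have h4 : 3 / 4 ≤ ‖(1 : ℂ) - pick M (x : ℂ) / (M : ℂ)‖ := by
      have h5 := norm_sub_norm_le (1 : ℂ) (pick M (x : ℂ) / (M : ℂ))
      rw [norm_one, norm_div, Complex.norm_real, Real.norm_of_nonneg hM0.le] at h5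
      have h6 : ‖pick M (x : ℂ)‖ / M ≤ 1 / 4 := by
        rw [div_le_iff₀ hM0]
        linarith
      linarith
    have h7 : (3 / 4 : ℝ) ^ 2 ≤ ‖(1 : ℂ) - pick M (x : ℂ) / (M : ℂ)‖ ^ 2 :=
      pow_le_pow_left₀ (by norm_num) h4 2
    have hd : 0 < (1 - x) ^ 2 := by
      have : 0 < 1 - x := by linarith
      positivity
    rw [div_le_iff₀ hd, h2]
    have h8 : (1 / 2 : ℝ) * (3 / 4) ^ 2 ≤ x * ‖(1 : ℂ) - pick M (x : ℂ) / (M : ℂ)‖ ^ 2 :=
      mul_le_mul hx h7 (by positivity) (by linarith)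
    refine le_trans (le_of_eq ?_) h8
    norm_num

/-- The tail of the Taylor series of a bounded univalent function. -/
lemma tail_le {f : ℂ → ℂ} (h : InS f) {M : ℝ} (hM : 0 ≤ M)
    (hb : ∀ z ∈ ball (0 : ℂ) 1, ‖f z‖ ≤ M) {x : ℝ} (hx : 0 ≤ x) (hx1 : x < 1) (n : ℕ) :
    ‖f (x : ℂ) - ∑ m ∈ Finset.range (n + 1), tc f m * (x : ℂ) ^ m‖ ≤
      M * (x ^ (n + 1) / Real.sqrt ((n + 1) * (1 - x))) := by
  have hz : (x : ℂ) ∈ ball (0 : ℂ) 1 := by
    rw [mem_ball_zero_iff, Complex.norm_real, Real.norm_of_nonneg hx]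
    exact hx1
  have hsum := hasSum_tc h.diff hz
  have h1 := ((hasSum_nat_add_iff' (n + 1)).2 hsum).tendsto_sum_nat
  refine le_of_tendsto h1.norm (Filter.Eventually.of_forall fun K => ?_)
  have hn : (0 : ℝ) < (n : ℝ) + 1 := by positivity
  have hx0 : 0 < 1 - x := by linarith
  have h2 : ‖∑ i ∈ Finset.range K, tc f (i + (n + 1)) * (x : ℂ) ^ (i + (n + 1))‖ ≤
      ∑ i ∈ Finset.range K, (Real.sqrt ((i : ℝ) + n + 1) * ‖tc f (i + n + 1)‖) *
        (x ^ (i + (n + 1)) / Real.sqrt ((i : ℝ) + n + 1)) := by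
    refine (norm_sum_le _ _).trans (Finset.sum_le_sum fun i _ => ?_)
    have h3 : Real.sqrt ((i : ℝ) + n + 1) ≠ 0 := (Real.sqrt_pos.2 (by positivity)).ne'
    rw [norm_mul, norm_pow, Complex.norm_real, Real.norm_of_nonneg hx]
    apply le_of_eq
    rw [show i + (n + 1) = i + n + 1 by ring]
    field_simp
  refine h2.trans ((Real.sum_mul_le_sqrt_mul_sqrt _ _ _).trans ?_)
  apply mul_le_mul
  · rw [Real.sqrt_le_left hM]
    have h4 := coef_area h hM hb (n + K)
    rw [Finset.sum_range_add] at h4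
    have h5 : ∑ i ∈ Finset.range K, (Real.sqrt ((i : ℝ) + n + 1) * ‖tc f (i + n + 1)‖) ^ 2 =
        ∑ i ∈ Finset.range K, (((n + i : ℕ) : ℝ) + 1) * ‖tc f (n + i + 1)‖ ^ 2 := by
      refine Finset.sum_congr rfl fun i _ => ?_
      rw [mul_pow, Real.sq_sqrt (by positivity), show n + i + 1 = i + n + 1 by ring]
      push_cast
      ring
    rw [h5]
    have h6 : 0 ≤ ∑ k ∈ Finset.range n, ((k : ℝ) + 1) * ‖tc f (k + 1)‖ ^ 2 :=
      Finset.sum_nonneg fun k _ => by positivity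
    linarith
  · rw [Real.sqrt_le_left (by positivity), div_pow, Real.sq_sqrt (by positivity)]
    have h5 : ∀ i ∈ Finset.range K, (x ^ (i + (n + 1)) / Real.sqrt ((i : ℝ) + n + 1)) ^ 2 ≤
        ((x ^ (n + 1)) ^ 2 / (n + 1)) * x ^ i := by
      intro i _
      rw [div_pow, Real.sq_sqrt (by positivity), pow_add, mul_pow]
      have h6 : (x ^ i) ^ 2 ≤ x ^ i := by
        have h7 : x ^ i ≤ 1 := pow_le_one₀ hx hx1.le
        have h8 : 0 ≤ x ^ i := pow_nonneg hx i
        nlinarith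
      rw [div_mul_eq_mul_div]
      apply div_le_div₀ (by positivity) _ hn _
      · rw [mul_comm]
        exact mul_le_mul_of_nonneg_left h6 (by positivity)
      · have : (0 : ℝ) ≤ i := Nat.cast_nonneg i
        linarith
    refine (Finset.sum_le_sum h5).trans ?_
    rw [← Finset.mul_sum]
    have h6 : ∑ i ∈ Finset.range K, x ^ i ≤ 1 / (1 - x) := by
      rw [le_div_iff₀ hx0]
      have h7 := geom_sum_mul x K
      have h8 : 0 ≤ x ^ K := pow_nonneg hx K
      nlinarith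
    refine (mul_le_mul_of_nonneg_left h6 (by positivity)).trans (le_of_eq ?_)
    field_simp
  · exact Real.sqrt_nonneg _
  · exact hM

/-- For `M ≤ n²` and `n ≥ 16` some partial sum is large. -/
theorem exists_large {M : ℝ} (hM : 1 ≤ M) (n : ℕ) (hn : 16 ≤ n) (hMn : M ≤ (n : ℝ) ^ 2) :
    ∃ z : ℂ, ‖z‖ = 1 ∧ M / 300 ≤ ‖∑ m ∈ Finset.range (n + 1), tc (pick M) m * z ^ m‖ := by
  have hM0 : 0 < M := by linarith
  have hn' : (16 : ℝ) ≤ n := by exact_mod_cast hn
  have hn1 : (0 : ℝ) < (n : ℝ) + 1 := by positivity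
  set x : ℝ := 1 - 8 / ((n : ℝ) + 1) with hx
  have h8 : 8 / ((n : ℝ) + 1) ≤ 1 / 2 := by
    rw [div_le_iff₀ hn1]; linarith
  have h80 : 0 < 8 / ((n : ℝ) + 1) := by positivity
  have hxl : 1 / 2 ≤ x := by rw [hx]; linarith
  have hx1 : x < 1 := by rw [hx]; linarith
  have hS : InS (pick M) := ⟨pick_diff hM, pick_inj hM, pick_zero hM, pick_one hM⟩
  have hb : ∀ z ∈ ball (0 : ℂ) 1, ‖pick M z‖ ≤ M := fun z hz => (pick_norm hM hz).le
  have h1 := pick_large hM hxl hx1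
  have h2 := tail_le hS hM0.le hb (by linarith : 0 ≤ x) hx1 n
  have e1 : 1 - x = 8 / ((n : ℝ) + 1) := by rw [hx]; ring
  -- main term
  have h3 : M * (1 / 250) ≤ min (M / 4) (9 / 32 / (1 - x) ^ 2) := by
    apply le_min
    · linarith
    · rw [e1]
      have e2 : 9 / 32 / (8 / ((n : ℝ) + 1)) ^ 2 = 9 / 2048 * ((n : ℝ) + 1) ^ 2 := by
        field_simp
        norm_num
      rw [e2]
      nlinarith
  -- the tail
  have h4 : x ^ (n + 1) / Real.sqrt ((n + 1) * (1 - x)) ≤ 1 / 1600 := by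
    have e3 : ((n : ℝ) + 1) * (1 - x) = 8 := by rw [e1]; field_simp
    rw [e3]
    have h5 : x ^ (n + 1) ≤ Real.exp (-8) := by
      have h6 : x ≤ Real.exp (-(8 / ((n : ℝ) + 1))) := by
        have := Real.one_sub_le_exp_neg (8 / ((n : ℝ) + 1))
        rw [hx]; exact this
      calc x ^ (n + 1) ≤ (Real.exp (-(8 / ((n : ℝ) + 1)))) ^ (n + 1) :=
            pow_le_pow_left₀ (by linarith) h6 _
        _ = Real.exp (-8) := by
            rw [← Real.exp_nat_mul]
            congr 1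
            push_cast
            field_simp
    have h6 : Real.exp (-8) ≤ 1 / 1600 := by
      rw [Real.exp_neg, one_div]
      apply inv_anti₀ (by norm_num)
      have h7 : Real.exp 8 = (Real.exp 1) ^ 8 := by
        rw [← Real.exp_nat_mul]; norm_num
      rw [h7]
      have h9 : (2.7 : ℝ) ≤ Real.exp 1 := by
        have := Real.exp_one_gt_d9
        linarith
      calc (1600 : ℝ) ≤ (2.7 : ℝ) ^ 8 := by norm_num
        _ ≤ (Real.exp 1) ^ 8 := pow_le_pow_left₀ (by norm_num) h9 8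
    have h7 : 1 ≤ Real.sqrt 8 := by
      rw [Real.one_le_sqrt]; norm_num
    calc x ^ (n + 1) / Real.sqrt 8 ≤ x ^ (n + 1) :=
          div_le_self (by have : (0 : ℝ) ≤ x := by linarith
                          positivity) h7
      _ ≤ 1 / 1600 := h5.trans h6
  set p : ℂ → ℂ := fun z => ∑ m ∈ Finset.range (n + 1), tc (pick M) m * z ^ m with hp
  have h5 : M / 300 ≤ ‖p (x : ℂ)‖ := by
    have h6 := norm_sub_norm_le (pick M (x : ℂ)) (pick M (x : ℂ) - p (x : ℂ))
    rw [sub_sub_cancel] at h6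
    have h7 : ‖pick M (x : ℂ) - p (x : ℂ)‖ ≤ M * (1 / 1600) :=
      h2.trans (mul_le_mul_of_nonneg_left h4 hM0.le)
    have h9 := h3.trans h1
    linarith
  have hpd : Differentiable ℂ p := by rw [hp]; fun_prop
  obtain ⟨z, hz, hmax⟩ := Complex.exists_mem_frontier_isMaxOn_norm (f := p) (U := ball (0 : ℂ) 1)
    isBounded_ball ⟨0, zero_mem⟩ ⟨hpd.differentiableOn, hpd.continuous.continuousOn⟩
  rw [frontier_ball _ one_ne_zero, mem_sphere_zero_iff_norm] at hz
  rw [closure_ball _ one_ne_zero] at hmax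
  refine ⟨z, hz, h5.trans (hmax ?_)⟩
  rw [mem_closedBall_zero_iff, Complex.norm_real, Real.norm_of_nonneg (by linarith)]
  exact hx1.le

end Pool.Agent.V1187.MA
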