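import Mathlib
import Pool.Agent.V1187.MA.Low
import Pool.Agent.Helper405.Riemann

/-!
The growth theorem for the class S (adapted from the starting-library files Helper240/ZFM/B1 and
Helper671/UP/Univ).
-/

set_option linter.all false

namespace Pool.Agent.V1187.MA.Gr

open Complex Filter Topology Set Metric MeasureTheory
open Pool.Agent.V1187.MA

theorem bieb {g : ℂ → ℂ} (hd : DifferentiableOn ℂ g (ball 0 1)) (hi : InjOn g (ball 0 1)) :
    ‖deriv (deriv g) 0‖ ≤ 4 * ‖deriv g 0‖ := by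
  have hb0 : (0 : ℂ) ∈ ball (0 : ℂ) 1 := mem_ball_self one_pos
  have hne := Pool.Agent.Helper405.Conv.deriv_ne_zero_of_injOn isOpen_ball hd hi hb0
  set g0 : ℂ → ℂ := fun z => (deriv g 0)⁻¹ * (g z - g 0) with hg0
  have hd0 : DifferentiableOn ℂ g0 (ball 0 1) := (hd.sub_const _).const_mul _
  have hi0 : InjOn g0 (ball 0 1) := by
    intro z hz w hw h
    apply hi hz hw
    have := mul_left_cancel₀ (inv_ne_zero hne) h
    linear_combination this
  have hder : deriv g0 = fun z => (deriv g 0)⁻¹ * deriv g z := by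
    funext z
    simp only [hg0]
    rw [deriv_const_mul_field, deriv_sub_const]
  have h := bieb_norm hd0 hi0 (by simp [hg0]) (by rw [hder]; exact inv_mul_cancel₀ hne)
  rw [hder, deriv_const_mul_field, norm_mul, norm_inv] at h
  have hpos := norm_pos_iff.2 hne
  rw [inv_mul_le_iff₀ hpos] at h
  linarith

/-- Koebe/Bieberbach in invariant form (`|a_2| ≤ 2`). -/
theorem koebe_second {ψ : ℂ → ℂ} (hd : DifferentiableOn ℂ ψ (ball 0 1)) (hi : InjOn ψ (ball 0 1))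
    {ζ : ℂ} (hζ : ζ ∈ ball (0 : ℂ) 1) :
    ‖deriv (deriv ψ) ζ * (1 - ‖ζ‖ ^ 2 : ℝ) - 2 * (starRingEnd ℂ) ζ * deriv ψ ζ‖ ≤ 4 * ‖deriv ψ ζ‖ := by
  rw [mem_ball_zero_iff] at hζ
  have hc : ‖-ζ‖ < 1 := by rwa [norm_neg]
  set M : ℂ → ℂ := Pool.Agent.Helper405.Riemann.bl (-ζ) with hM
  have hMd : ∀ z ∈ ball (0:ℂ) 1, HasDerivAt M ((1 - (starRingEnd ℂ) (-ζ) * (-ζ)) / (1 - (starRingEnd ℂ) (-ζ) * z) ^ 2) z := by
    intro z hz
    exact Pool.Agent.Helper405.Riemann.bl_hasDerivAt hc (by rwa [mem_ball_zero_iff] at hz)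
  have hMm : ∀ z ∈ ball (0:ℂ) 1, M z ∈ ball (0:ℂ) 1 := by
    intro z hz
    rw [mem_ball_zero_iff] at hz ⊢
    exact Pool.Agent.Helper405.Riemann.bl_norm_lt hc hz
  have hb0 : (0 : ℂ) ∈ ball (0 : ℂ) 1 := mem_ball_self one_pos
  have hnb : ball (0 : ℂ) 1 ∈ 𝓝 (0 : ℂ) := isOpen_ball.mem_nhds hb0
  have hM0 : M 0 = ζ := by rw [hM, Pool.Agent.Helper405.Riemann.bl_zero, neg_neg]
  have hψd : ∀ z ∈ ball (0:ℂ) 1, HasDerivAt ψ (deriv ψ z) z := fun z hz =>
    (hd.differentiableAt (isOpen_ball.mem_nhds hz)).hasDerivAt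
  have hgd : ∀ z ∈ ball (0:ℂ) 1, HasDerivAt (ψ ∘ M) (deriv ψ (M z) * ((1 - (starRingEnd ℂ) (-ζ) * (-ζ)) / (1 - (starRingEnd ℂ) (-ζ) * z) ^ 2)) z := by
    intro z hz
    exact (hψd (M z) (hMm z hz)).comp z (hMd z hz)
  have hgi : InjOn (ψ ∘ M) (ball 0 1) := by
    intro z hz w hw h
    have h1 := hi (hMm z hz) (hMm w hw) h
    rw [mem_ball_zero_iff] at hz hw
    exact Pool.Agent.Helper405.Riemann.bl_inj hc hz hw h1
  have hB := bieb (g := ψ ∘ M) (fun z hz => (hgd z hz).differentiableAt.differentiableWithinAt) hgi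
  set A : ℂ := 1 - (starRingEnd ℂ) (-ζ) * (-ζ) with hA
  have hAe : A = ((1 - ‖ζ‖ ^ 2 : ℝ) : ℂ) := by
    rw [hA, map_neg, neg_mul_neg, ← Complex.normSq_eq_conj_mul_self, Complex.normSq_eq_norm_sq]
    push_cast
    ring
  have hApos : 0 < 1 - ‖ζ‖ ^ 2 := by nlinarith [norm_nonneg ζ]
  have hg1 : deriv (ψ ∘ M) 0 = deriv ψ ζ * A := by
    rw [(hgd 0 hb0).deriv, hM0]
    simp
  have hg2 : deriv (deriv (ψ ∘ M)) 0 = (deriv (deriv ψ) ζ * A - 2 * (starRingEnd ℂ) ζ * deriv ψ ζ) * A := by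
    have e1 : deriv (ψ ∘ M) =ᶠ[𝓝 0] fun z => deriv ψ (M z) * (A / (1 - (starRingEnd ℂ) (-ζ) * z) ^ 2) := by
      filter_upwards [hnb] with z hz
      exact (hgd z hz).deriv
    rw [e1.deriv_eq]
    have hζm : ζ ∈ ball (0:ℂ) 1 := by rwa [mem_ball_zero_iff]
    have e2 : HasDerivAt (deriv ψ) (deriv (deriv ψ) ζ) (M 0) := by
      rw [hM0]
      exact ((hd.deriv isOpen_ball).differentiableAt (isOpen_ball.mem_nhds hζm)).hasDerivAt
    have e3 := e2.comp (0:ℂ) (hMd 0 hb0)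
    have e4 : HasDerivAt (fun z : ℂ => 1 - (starRingEnd ℂ) (-ζ) * z) (-(starRingEnd ℂ) (-ζ)) 0 := by
      have := ((hasDerivAt_id (0:ℂ)).const_mul ((starRingEnd ℂ) (-ζ))).const_sub 1
      simpa using this
    have e5 : HasDerivAt (fun z : ℂ => A / (1 - (starRingEnd ℂ) (-ζ) * z) ^ 2) (-2 * (starRingEnd ℂ) ζ * A) 0 := by
      have := (hasDerivAt_const (0:ℂ) A).div (e4.pow 2) (by simp)
      refine this.congr_deriv ?_
      simp
      ring
    have e6 := (e3.mul e5).deriv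
    refine Eq.trans ?_ (e6.trans ?_)
    · rfl
    · simp only [Function.comp_def, hM0, mul_zero, sub_zero, one_pow, div_one]
      ring
  rw [hg1, hg2, norm_mul, norm_mul, hAe, Complex.norm_real, Real.norm_of_nonneg hApos.le, ← mul_assoc] at hB
  exact le_of_mul_le_mul_right hB hApos



theorem L3_wderiv (t : ℝ) (h0 : 0 ≤ t) :
    HasDerivAt (fun t : ℝ => (1 - t) ^ 6 / (1 + t) ^ 2)
      (-((1 - t) ^ 5 * (8 + 4 * t)) / (1 + t) ^ 3) t := by
  have h1 : (1 + t) ≠ 0 := by positivity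
  have hA : HasDerivAt (fun t : ℝ => (1 - t) ^ 6) (6 * (1 - t) ^ 5 * (-1)) t := by
    have h2 : HasDerivAt (fun t : ℝ => 1 - t) (-1) t := (hasDerivAt_id t).const_sub 1
    have := h2.fun_pow 6
    refine this.congr_deriv ?_
    norm_num
  have hB : HasDerivAt (fun t : ℝ => (1 + t) ^ 2) (2 * (1 + t) * 1) t := by
    have h2 : HasDerivAt (fun t : ℝ => 1 + t) 1 t := (hasDerivAt_id t).const_add 1
    have := h2.fun_pow 2
    refine this.congr_deriv ?_
    norm_num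
  have := hA.div hB (pow_ne_zero 2 h1)
  refine this.congr_deriv ?_
  field_simp
  ring

theorem L3_re (f : ℂ → ℂ) 
    (hk : ∀ ζ : ℂ, ‖ζ‖ < 1 →
      ‖((1 - ‖ζ‖ ^ 2 : ℝ) : ℂ) * (deriv (deriv f) ζ / deriv f ζ) - 2 * (starRingEnd ℂ) ζ‖ ≤ 4)
    (u : ℂ) (hu : ‖u‖ = 1) (t : ℝ) (h0 : 0 ≤ t) (h1 : t < 1) :
    (1 - t ^ 2) * ((deriv (deriv f) (t * u) / deriv f (t * u)) * u).re ≤ 4 + 2 * t := by
  have hn : ‖(t : ℂ) * u‖ = t := by
    rw [norm_mul, hu, mul_one, Complex.norm_real, Real.norm_of_nonneg h0]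
  have h := hk (t * u) (by rw [hn]; exact h1)
  rw [hn] at h
  have h2 : ‖(((1 - t ^ 2 : ℝ) : ℂ) * (deriv (deriv f) (t * u) / deriv f (t * u)) - 2 * (starRingEnd ℂ) (t * u)) * u‖ ≤ 4 := by
    rw [norm_mul, hu, mul_one]; exact h
  have h3 := (Complex.re_le_norm _).trans h2
  have huu : (starRingEnd ℂ) u * u = 1 := by
    rw [mul_comm, Complex.mul_conj, Complex.normSq_eq_norm_sq, hu]; norm_num
  have h4 : (((1 - t ^ 2 : ℝ) : ℂ) * (deriv (deriv f) (t * u) / deriv f (t * u)) - 2 * (starRingEnd ℂ) (t * u)) * u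
      = ((1 - t ^ 2 : ℝ) : ℂ) * ((deriv (deriv f) (t * u) / deriv f (t * u)) * u) - ((2 * t : ℝ) : ℂ) := by
    rw [map_mul, Complex.conj_ofReal]
    calc _ = ((1 - t ^ 2 : ℝ) : ℂ) * ((deriv (deriv f) (t * u) / deriv f (t * u)) * u) - 2 * t * ((starRingEnd ℂ) u * u) := by ring
      _ = _ := by rw [huu]; push_cast; ring
  rw [h4, Complex.sub_re, Complex.re_ofReal_mul, Complex.ofReal_re] at h3
  linarith

/-- TARGET L3. -/
theorem distortion (f : ℂ → ℂ) (hd : DifferentiableOn ℂ f (ball (0:ℂ) 1)) (h1 : deriv f 0 = 1)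
    (hne : ∀ z : ℂ, ‖z‖ < 1 → deriv f z ≠ 0)
    (hk : ∀ ζ : ℂ, ‖ζ‖ < 1 →
      ‖((1 - ‖ζ‖ ^ 2 : ℝ) : ℂ) * (deriv (deriv f) ζ / deriv f ζ) - 2 * (starRingEnd ℂ) ζ‖ ≤ 4)
    (z : ℂ) (hz : ‖z‖ < 1) : ‖deriv f z‖ ≤ (1 + ‖z‖) / (1 - ‖z‖) ^ 3 := by
  by_cases hz0 : z = 0
  · subst hz0; simp [h1]
  have hr : 0 < ‖z‖ := norm_pos_iff.mpr hz0
  set r := ‖z‖ with hrdef
  set u : ℂ := z / r with hudef
  have hu : ‖u‖ = 1 := by
    rw [hudef, norm_div, Complex.norm_real, Real.norm_of_nonneg hr.le, ← hrdef]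
    exact div_self hr.ne'
  have hzu : z = r * u := by
    have hrc : (r : ℂ) ≠ 0 := by exact_mod_cast hr.ne'
    rw [hudef]; field_simp
  have hdd : DifferentiableOn ℂ (deriv f) (ball (0:ℂ) 1) := hd.deriv isOpen_ball
  have hF : ∀ t : ℝ, |t| < 1 → HasDerivAt (fun t : ℝ => deriv f (t * u)) (deriv (deriv f) (t * u) * u) t := by
    intro t htt
    have hmm : (t : ℂ) * u ∈ ball (0:ℂ) 1 := by
      rw [mem_ball_zero_iff, norm_mul, hu, mul_one, Complex.norm_real]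
      exact htt
    have h1 : HasDerivAt (fun t : ℝ => (t : ℂ) * u) (1 * u) t := (Complex.ofRealCLM.hasDerivAt.mul_const u)
    have h2 := (hdd.differentiableAt (isOpen_ball.mem_nhds hmm)).hasDerivAt
    have h3 := HasDerivAt.comp t h2 h1
    rw [one_mul] at h3
    exact h3
  have hN : ∀ t : ℝ, |t| < 1 → HasDerivAt (fun t : ℝ => ‖deriv f (t * u)‖ ^ 2)
      (2 * inner ℝ (deriv f (t * u)) (deriv (deriv f) (t * u) * u)) t := fun t ht => (hF t ht).norm_sq
  have hh : ∀ t : ℝ, 0 ≤ t → t < 1 → HasDerivAt (fun t : ℝ => ‖deriv f (t * u)‖ ^ 2 * ((1 - t) ^ 6 / (1 + t) ^ 2))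
      (2 * inner ℝ (deriv f (t * u)) (deriv (deriv f) (t * u) * u) * ((1 - t) ^ 6 / (1 + t) ^ 2)
        + ‖deriv f (t * u)‖ ^ 2 * (-((1 - t) ^ 5 * (8 + 4 * t)) / (1 + t) ^ 3)) t :=
    fun t ht htl => (hN t (by rw [abs_of_nonneg ht]; exact htl)).mul (L3_wderiv t ht)
  have hanti : AntitoneOn (fun t : ℝ => ‖deriv f (t * u)‖ ^ 2 * ((1 - t) ^ 6 / (1 + t) ^ 2)) (Icc 0 r) := by
    apply antitoneOn_of_deriv_nonpos (convex_Icc 0 r)
    · intro t ht
      exact (hh t ht.1 (lt_of_le_of_lt ht.2 hz)).continuousAt.continuousWithinAt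
    · intro t ht
      rw [interior_Icc] at ht
      exact (hh t ht.1.le (lt_trans ht.2 hz)).differentiableAt.differentiableWithinAt
    · intro t ht
      rw [interior_Icc] at ht
      rw [(hh t ht.1.le (lt_trans ht.2 hz)).deriv]
      have ht0 : 0 < t := ht.1
      have ht1 : t < 1 := lt_trans ht.2 hz
      have hn : ‖(t : ℂ) * u‖ = t := by
        rw [norm_mul, hu, mul_one, Complex.norm_real, Real.norm_of_nonneg ht0.le]
      have hne' := hne (t * u) (by rw [hn]; exact ht1)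
      have hre := L3_re f hk u hu t ht0.le ht1
      set q := (deriv (deriv f) (t * u) / deriv f (t * u)) * u with hq
      have hin : inner ℝ (deriv f (t * u)) (deriv (deriv f) (t * u) * u) = ‖deriv f (t * u)‖ ^ 2 * q.re := by
        have e : deriv (deriv f) (t * u) * u = q * deriv f (t * u) := by
          rw [hq]; field_simp
        rw [e, Complex.inner]
        have e2 : (starRingEnd ℂ) (deriv f (t * u)) * (q * deriv f (t * u)) = ((‖deriv f (t * u)‖ ^ 2 : ℝ) : ℂ) * q := by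
          have : (starRingEnd ℂ) (deriv f (t * u)) * (q * deriv f (t * u)) = (deriv f (t * u) * (starRingEnd ℂ) (deriv f (t * u))) * q := by ring
          rw [this, Complex.mul_conj, Complex.normSq_eq_norm_sq]
        have e5 : (starRingEnd ℂ) (deriv f (t * u)) * (q * deriv f (t * u)) = (q * deriv f (t * u)) * (starRingEnd ℂ) (deriv f (t * u)) := mul_comm _ _
        first
          | rw [e2, Complex.re_ofReal_mul]
          | rw [← e5, e2, Complex.re_ofReal_mul]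
      rw [hin]
      have hsq : 0 ≤ ‖deriv f (t * u)‖ ^ 2 := by positivity
      have hkey : 2 * q.re * ((1 - t) ^ 6 / (1 + t) ^ 2) + (-((1 - t) ^ 5 * (8 + 4 * t)) / (1 + t) ^ 3) ≤ 0 := by
        have e3 : 2 * q.re * ((1 - t) ^ 6 / (1 + t) ^ 2) + (-((1 - t) ^ 5 * (8 + 4 * t)) / (1 + t) ^ 3)
            = 2 * (1 - t) ^ 5 / (1 + t) ^ 3 * ((1 - t ^ 2) * q.re - (4 + 2 * t)) := by
          have : (1 + t) ≠ 0 := by positivity
          field_simp
          ring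
        rw [e3]
        apply mul_nonpos_of_nonneg_of_nonpos
        · have : 0 ≤ 1 - t := by linarith
          positivity
        · linarith
      nlinarith [mul_nonneg hsq (neg_nonneg.mpr hkey)]
  have h5 := hanti (left_mem_Icc.mpr hr.le) (right_mem_Icc.mpr hr.le) hr.le
  simp only [ofReal_zero, zero_mul, h1, norm_one, one_pow, sub_zero, add_zero, div_one, mul_one] at h5
  rw [← hzu] at h5
  have hp1 : 0 < 1 - r := by linarith
  have hp2 : 0 < 1 + r := by linarith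
  have h6 : ‖deriv f z‖ ^ 2 ≤ ((1 + r) / (1 - r) ^ 3) ^ 2 := by
    rw [div_pow, le_div_iff₀ (by positivity)]
    rw [mul_div_assoc', div_le_iff₀ (by positivity)] at h5
    calc ‖deriv f z‖ ^ 2 * ((1 - r) ^ 3) ^ 2 = ‖deriv f z‖ ^ 2 * (1 - r) ^ 6 := by ring
      _ ≤ _ := by linarith
  exact (pow_le_pow_iff_left₀ (norm_nonneg _) (by positivity) two_ne_zero).mp h6

/-- TARGET L4. -/
theorem growth (f : ℂ → ℂ) (hd : DifferentiableOn ℂ f (ball (0:ℂ) 1)) (h0 : f 0 = 0)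
    (hdist : ∀ z : ℂ, ‖z‖ < 1 → ‖deriv f z‖ ≤ (1 + ‖z‖) / (1 - ‖z‖) ^ 3)
    (z : ℂ) (hz : ‖z‖ < 1) : ‖f z‖ ≤ ‖z‖ / (1 - ‖z‖) ^ 2 := by
  set r : ℝ := ‖z‖ with hr
  have hr0 : 0 ≤ r := norm_nonneg z
  have hpos : ∀ t : ℝ, t ≤ 1 → 0 < 1 - t * r := by
    intro t ht
    have : t * r ≤ 1 * r := mul_le_mul_of_nonneg_right ht hr0
    linarith
  have hderf : ∀ t : ℝ, 0 ≤ t → t ≤ 1 → HasDerivAt (fun t : ℝ => f ((t : ℂ) * z)) (deriv f ((t : ℂ) * z) * z) t := by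
    intro t htt0 htt1
    have hmm : (t : ℂ) * z ∈ ball (0:ℂ) 1 := by
      rw [mem_ball_zero_iff, norm_mul, Complex.norm_real, Real.norm_of_nonneg htt0]
      have hx : t * ‖z‖ ≤ 1 * ‖z‖ := mul_le_mul_of_nonneg_right htt1 (norm_nonneg z)
      rw [← hr] at hx ⊢
      linarith
    have h1 : HasDerivAt (fun s : ℂ => s * z) z (t : ℂ) := by
      simpa using (hasDerivAt_id (t : ℂ)).mul_const z
    have h2 : HasDerivAt (fun s : ℂ => f (s * z)) (deriv f ((t : ℂ) * z) * z) (t : ℂ) :=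
      (hd.differentiableAt (isOpen_ball.mem_nhds hmm)).hasDerivAt.comp (t : ℂ) h1
    exact h2.comp_ofReal
  have hderB : ∀ t : ℝ, t ≤ 1 → HasDerivAt (fun t : ℝ => t * r / (1 - t * r) ^ 2)
      (r * ((1 + t * r) / (1 - t * r) ^ 3)) t := by
    intro t ht
    have hp := hpos t ht
    have h1 : HasDerivAt (fun s : ℝ => s * r) r t := by
      simpa using (hasDerivAt_id t).mul_const r
    have h2 : HasDerivAt (fun s : ℝ => (1 - s * r) ^ 2) (((2 : ℕ) : ℝ) * (1 - t * r) ^ (2 - 1) * (-r)) t := by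
      have h3 : HasDerivAt (fun s : ℝ => 1 - s * r) (-r) t := by
        simpa using h1.const_sub 1
      exact h3.pow 2
    have h4 : HasDerivAt (fun t : ℝ => t * r / (1 - t * r) ^ 2) ((r * (1 - t * r) ^ 2 -
        t * r * (((2 : ℕ) : ℝ) * (1 - t * r) ^ (2 - 1) * (-r))) / ((1 - t * r) ^ 2) ^ 2) t :=
      h1.div h2 (by positivity)
    refine h4.congr_deriv ?_
    have hne : 1 - t * r ≠ 0 := hp.ne'
    generalize hq : 1 - t * r = q at hne
    have ht' : t * r = 1 - q := by rw [← hq]; ring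
    rw [ht']
    norm_num
    field_simp
    ring
  have key := image_norm_le_of_norm_deriv_right_le_deriv_boundary' (a := (0:ℝ)) (b := 1)
    (f := fun t : ℝ => f ((t : ℂ) * z)) (f' := fun t : ℝ => deriv f ((t : ℂ) * z) * z)
    (fun t ht => (hderf t ht.1 ht.2).continuousAt.continuousWithinAt)
    (fun t ht => (hderf t ht.1 ht.2.le).hasDerivWithinAt)
    (B := fun t : ℝ => t * r / (1 - t * r) ^ 2) (B' := fun t : ℝ => r * ((1 + t * r) / (1 - t * r) ^ 3))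
    (by simp [h0])
    (fun t ht => (hderB t ht.2).continuousAt.continuousWithinAt)
    (fun t ht => (hderB t ht.2.le).hasDerivWithinAt)
    (by
      intro t ht
      have hn : ‖(t : ℂ) * z‖ = t * r := by
        rw [norm_mul, Complex.norm_real, Real.norm_of_nonneg ht.1]
      have h1 : ‖(t : ℂ) * z‖ < 1 := by
        rw [hn]
        have := hpos t ht.2.le
        linarith
      have h2 := hdist _ h1
      rw [hn] at h2
      rw [norm_mul, mul_comm]
      exact mul_le_mul_of_nonneg_left h2 hr0)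
  have := key (x := 1) ⟨zero_le_one, le_refl 1⟩
  simpa using this


/-- The growth theorem for the class `S`. -/
theorem growthS {f : ℂ → ℂ} (h : InS f) {z : ℂ} (hz : ‖z‖ < 1) :
    ‖f z‖ ≤ ‖z‖ / (1 - ‖z‖) ^ 2 := by
  have hne : ∀ z : ℂ, ‖z‖ < 1 → deriv f z ≠ 0 := fun z hz =>
    Pool.Agent.Helper405.Conv.deriv_ne_zero_of_injOn isOpen_ball h.diff h.inj
      (mem_ball_zero_iff.2 hz)
  refine growth f h.diff h.zero (fun z hz => distortion f h.diff h.one hne ?_ z hz) z hz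
  intro ζ hζ
  have h1 := koebe_second h.diff h.inj (mem_ball_zero_iff.2 hζ)
  have h2 := hne ζ hζ
  have h3 : 0 < ‖deriv f ζ‖ := norm_pos_iff.2 h2
  have h4 : deriv (deriv f) ζ * (1 - ‖ζ‖ ^ 2 : ℝ) - 2 * (starRingEnd ℂ) ζ * deriv f ζ =
      (((1 - ‖ζ‖ ^ 2 : ℝ) : ℂ) * (deriv (deriv f) ζ / deriv f ζ) - 2 * (starRingEnd ℂ) ζ) *
        deriv f ζ := by
    field_simp
  rw [h4, norm_mul] at h1
  exact le_of_mul_le_mul_right h1 h3

end Pool.Agent.V1187.MA.Gr
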