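import Mathlib
import Pool.Agent.V1187.MA.Part
import Pool.Agent.V1187.MA.Growth

/-!
A quadratic bound for the partial sums of univalent functions.
-/

namespace Pool.Agent.V1187.MA

open Complex Filter Topology Set Metric MeasureTheory
open Pool.Agent.H713R2 (tc hasSum_tc tc_unique)

/-- The size of a polynomial on a larger circle. -/
lemma larger_circle (c : ℕ → ℂ) (n : ℕ) {r B : ℝ} (hr : 0 < r) (hr1 : r ≤ 1)
    (hB : ∀ w : ℂ, ‖w‖ = 1 → ‖∑ m ∈ Finset.range (n + 1), c m * w ^ m‖ ≤ B)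
    {w : ℂ} (hw : ‖w‖ = 1) :
    ‖∑ m ∈ Finset.range (n + 1), c m * (w / r) ^ m‖ * r ^ n ≤ B := by
  set q : ℂ → ℂ := fun ζ => ∑ m ∈ Finset.range (n + 1), c m * ζ ^ (n - m) with hq
  have hqd : Differentiable ℂ q := by rw [hq]; fun_prop
  have hid : ∀ ζ : ℂ, ζ ≠ 0 →
      q ζ = ζ ^ n * ∑ m ∈ Finset.range (n + 1), c m * (ζ⁻¹) ^ m := by
    intro ζ hζ
    rw [hq, Finset.mul_sum]
    refine Finset.sum_congr rfl fun m hm => ?_
    have hmn : m ≤ n := by
      have := Finset.mem_range.1 hm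
      omega
    rw [inv_pow]
    have h1 : ζ ^ n = ζ ^ (n - m) * ζ ^ m := by rw [← pow_add]; congr 1; omega
    rw [h1]
    have h2 : ζ ^ m ≠ 0 := pow_ne_zero _ hζ
    field_simp
  have hb : ∀ ζ ∈ frontier (ball (0 : ℂ) 1), ‖q ζ‖ ≤ B := by
    intro ζ hζ
    rw [frontier_ball _ one_ne_zero, mem_sphere_zero_iff_norm] at hζ
    have h0 : ζ ≠ 0 := by
      intro h
      rw [h, norm_zero] at hζ
      exact zero_ne_one hζ
    rw [hid ζ h0, norm_mul, norm_pow, hζ, one_pow, one_mul]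
    apply hB
    rw [norm_inv, hζ, inv_one]
  have hw0 : w ≠ 0 := by
    intro h
    rw [h, norm_zero] at hw
    exact zero_ne_one hw
  have hrc : (r : ℂ) ≠ 0 := by exact_mod_cast hr.ne'
  set ζ : ℂ := r / w with hζdef
  have hζn : ‖ζ‖ = r := by
    rw [hζdef, norm_div, hw, div_one, Complex.norm_real, Real.norm_of_nonneg hr.le]
  have hmem : ζ ∈ closure (ball (0 : ℂ) 1) := by
    rw [closure_ball _ one_ne_zero, mem_closedBall_zero_iff, hζn]
    exact hr1
  have h1 := Complex.norm_le_of_forall_mem_frontier_norm_le isBounded_ball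
    ⟨hqd.differentiableOn, hqd.continuous.continuousOn⟩ hb hmem
  have hζ0 : ζ ≠ 0 := div_ne_zero hrc hw0
  rw [hid ζ hζ0, norm_mul, norm_pow, hζn] at h1
  have h2 : ζ⁻¹ = w / r := by rw [hζdef, inv_div]
  rw [h2, mul_comm] at h1
  exact h1

/-- Partial sums of univalent functions are at most `9 n²`. -/
theorem partial_sum_sq {f : ℂ → ℂ} (h : InS f) {w : ℂ} (hw : ‖w‖ = 1) (n : ℕ) (hn : 2 ≤ n) :
    ‖∑ m ∈ Finset.range (n + 1), tc f m * w ^ m‖ ≤ 9 * (n : ℝ) ^ 2 := by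
  have hn' : (2 : ℝ) ≤ n := by exact_mod_cast hn
  have hn0 : (0 : ℝ) < n := by linarith
  have hn1 : (0 : ℝ) < (n : ℝ) + 1 := by linarith
  set r : ℝ := (n : ℝ) / (n + 1) with hr
  have hr0 : 0 < r := by positivity
  have hr1 : r < 1 := by rw [hr, div_lt_one hn1]; linarith
  have hrc : (r : ℂ) ≠ 0 := by exact_mod_cast hr0.ne'
  have hmaps : ∀ z ∈ ball (0 : ℂ) 1, (r : ℂ) * z ∈ ball (0 : ℂ) 1 := by
    intro z hz
    rw [mem_ball_zero_iff] at hz ⊢
    rw [norm_mul, Complex.norm_real, Real.norm_of_nonneg hr0.le]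
    nlinarith [norm_nonneg z]
  set g : ℂ → ℂ := fun z => (r : ℂ)⁻¹ * f (r * z) with hg
  have hgd : ∀ z ∈ ball (0 : ℂ) 1, HasDerivAt g (deriv f (r * z)) z := by
    intro z hz
    have h1 := (h.diff.differentiableAt (isOpen_ball.mem_nhds (hmaps z hz))).hasDerivAt
    have h2 : HasDerivAt (fun z : ℂ => (r : ℂ) * z) r z := by
      simpa using (hasDerivAt_id z).const_mul (r : ℂ)
    have h3 := (h1.comp z h2).const_mul (r : ℂ)⁻¹
    refine h3.congr_deriv ?_
    field_simp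
  have hgS : InS g := by
    refine ⟨fun z hz => (hgd z hz).differentiableAt.differentiableWithinAt, ?_, ?_, ?_⟩
    · intro z hz y hy hzy
      have h1 := mul_left_cancel₀ (inv_ne_zero hrc) hzy
      exact mul_left_cancel₀ hrc (h.inj (hmaps z hz) (hmaps y hy) h1)
    · simp [hg, h.zero]
    · rw [(hgd 0 zero_mem).deriv, mul_zero, h.one]
  have hgb : ∀ z ∈ ball (0 : ℂ) 1, ‖g z‖ ≤ ((n : ℝ) + 1) ^ 2 := by
    intro z hz
    have h1 := Gr.growthS h (mem_ball_zero_iff.1 (hmaps z hz))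
    rw [mem_ball_zero_iff] at hz
    have h2 : ‖(r : ℂ) * z‖ = r * ‖z‖ := by
      rw [norm_mul, Complex.norm_real, Real.norm_of_nonneg hr0.le]
    rw [h2] at h1
    simp only [hg]
    rw [norm_mul, norm_inv, Complex.norm_real, Real.norm_of_nonneg hr0.le]
    have h3 : 1 - r = 1 / ((n : ℝ) + 1) := by rw [hr]; field_simp; ring
    have h4 : 1 / ((n : ℝ) + 1) ≤ 1 - r * ‖z‖ := by
      rw [← h3]
      nlinarith [norm_nonneg z]
    have h5 : (1 / ((n : ℝ) + 1)) ^ 2 ≤ (1 - r * ‖z‖) ^ 2 :=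
      pow_le_pow_left₀ (by positivity) h4 2
    have h6 : r * ‖z‖ / (1 - r * ‖z‖) ^ 2 ≤ r / (1 / ((n : ℝ) + 1)) ^ 2 := by
      apply div_le_div₀ hr0.le _ (by positivity) h5
      nlinarith [norm_nonneg z]
    calc r⁻¹ * ‖f (r * z)‖ ≤ r⁻¹ * (r / (1 / ((n : ℝ) + 1)) ^ 2) :=
          mul_le_mul_of_nonneg_left (h1.trans h6) (by positivity)
      _ = ((n : ℝ) + 1) ^ 2 := by field_simp
  have htg : tc g = fun k => (r : ℂ)⁻¹ * (tc f k * r ^ k) := by
    symm
    refine tc_unique one_pos hgS.diff ?_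
    filter_upwards [isOpen_ball.mem_nhds zero_mem] with z hz
    have h1 := (hasSum_tc h.diff (hmaps z hz)).mul_left (r : ℂ)⁻¹
    have e : (fun k => (r : ℂ)⁻¹ * (tc f k * r ^ k) * z ^ k) =
        fun k => (r : ℂ)⁻¹ * (tc f k * (r * z) ^ k) := by
      funext k
      rw [mul_pow]
      ring
    rw [e]
    exact h1
  have hB : ∀ u : ℂ, ‖u‖ = 1 → ‖∑ m ∈ Finset.range (n + 1), tc g m * u ^ m‖ ≤
      2 * ((n : ℝ) + 1) ^ 2 := by
    intro u hu
    refine (partial_sum_le hgS (by positivity) hgb hu n).trans ?_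
    have h1 : Real.sqrt ((n : ℝ) / (2 * (n + 1))) ≤ 1 := by
      refine Real.sqrt_le_iff.2 ⟨zero_le_one, ?_⟩
      rw [one_pow, div_le_one (by positivity)]
      linarith
    nlinarith [sq_nonneg ((n : ℝ) + 1)]
  have h1 := larger_circle (tc g) n hr0 hr1.le hB hw
  have h2 : ∑ m ∈ Finset.range (n + 1), tc g m * (w / r) ^ m =
      (r : ℂ)⁻¹ * ∑ m ∈ Finset.range (n + 1), tc f m * w ^ m := by
    rw [htg, Finset.mul_sum]
    refine Finset.sum_congr rfl fun m _ => ?_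
    have h3 : (r : ℂ) ^ m ≠ 0 := pow_ne_zero _ hrc
    rw [div_pow]
    field_simp
  rw [h2, norm_mul, norm_inv, Complex.norm_real, Real.norm_of_nonneg hr0.le] at h1
  set X := ‖∑ m ∈ Finset.range (n + 1), tc f m * w ^ m‖ with hX
  have hX0 : 0 ≤ X := norm_nonneg _
  -- `r ^ n ≥ 1 / 3`
  have h3 : 1 / 3 ≤ r ^ n := by
    have h4 : (r⁻¹) ^ n ≤ 3 := by
      have h5 : r⁻¹ ≤ Real.exp (1 / n) := by
        have h6 := Real.add_one_le_exp (1 / (n : ℝ))
        refine le_trans (le_of_eq ?_) h6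
        rw [hr, inv_div]
        field_simp
        ring
      calc (r⁻¹) ^ n ≤ (Real.exp (1 / n)) ^ n := pow_le_pow_left₀ (by positivity) h5 n
        _ = Real.exp 1 := by
            rw [← Real.exp_nat_mul]
            congr 1
            field_simp
        _ ≤ 3 := by linarith [Real.exp_one_lt_d9]
    have h5 : 0 < r ^ n := by positivity
    rw [inv_pow, inv_le_iff_one_le_mul₀ h5] at h4
    linarith
  have h4 : r⁻¹ * X * (1 / 3) ≤ 2 * ((n : ℝ) + 1) ^ 2 :=
    (mul_le_mul_of_nonneg_left h3 (by positivity)).trans h1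
  have h5 : X = r * (r⁻¹ * X) := by field_simp
  have h6 : r⁻¹ * X ≤ 6 * ((n : ℝ) + 1) ^ 2 := by linarith
  have h7 : X ≤ r * (6 * ((n : ℝ) + 1) ^ 2) := by
    rw [h5]
    exact mul_le_mul_of_nonneg_left h6 hr0.le
  refine h7.trans ?_
  have h8 : r * (6 * ((n : ℝ) + 1) ^ 2) = 6 * n * (n + 1) := by
    rw [hr]; field_simp
  rw [h8]
  nlinarith

end Pool.Agent.V1187.MA
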